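import Pool.Agent.H203R4.DF.Stmts

/-! Project H203DF, task KK (helper377): Kadec-Klee for `ℓ¹`. -/

set_option autoImplicit false

namespace Pool.Agent.H377R4.DF

open Pool.Agent.H203R4.DF

theorem taskKK : TaskKK := by
  classical
  intro W _ S z R hc hR ε hε
  rw [dense_iff_inter_open]
  intro U0 hU0 hne
  obtain ⟨v0, hv0⟩ := hne
  set A : Set ℝ := {a | ∃ w ∈ U0, ∃ F : Finset S, a = ∑ s ∈ F, ‖z w s‖} with hA
  have hAne : A.Nonempty := ⟨_, v0, hv0, ∅, rfl⟩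
  have hAbd : BddAbove A := ⟨R, by rintro _ ⟨w, _, F, rfl⟩; exact hR w F⟩
  have hN : ∀ w ∈ U0, ∀ F : Finset S, ∑ s ∈ F, ‖z w s‖ ≤ sSup A :=
    fun w hw F => le_csSup hAbd ⟨w, hw, F, rfl⟩
  obtain ⟨a, ⟨w0, hw0, F0, rfl⟩, ha⟩ := exists_lt_of_lt_csSup hAne (show sSup A - ε / 8 < sSup A by linarith)
  set U : Set W := U0 ∩ {w | ∑ s ∈ F0, ‖z w s - z w0 s‖ < ε / 8} with hU
  have hUo : IsOpen U := by
    apply hU0.inter
    apply isOpen_lt _ continuous_const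
    exact continuous_finsetSum _ (fun s _ => ((hc s).sub continuous_const).norm)
  have key : ∀ w ∈ U, ∀ F : Finset S, ∑ s ∈ F \ F0, ‖z w s‖ ≤ ε / 4 := by
    intro w hw F
    have h1 : ∑ s ∈ F0, ‖z w0 s‖ ≤ ∑ s ∈ F0, ‖z w s‖ + ∑ s ∈ F0, ‖z w s - z w0 s‖ := by
      rw [← Finset.sum_add_distrib]
      apply Finset.sum_le_sum
      intro s _
      have : z w0 s = z w s - (z w s - z w0 s) := by ring
      calc ‖z w0 s‖ = ‖z w s - (z w s - z w0 s)‖ := by rw [← this]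
        _ ≤ ‖z w s‖ + ‖z w s - z w0 s‖ := norm_sub_le _ _
    have h2 : ∑ s ∈ F0, ‖z w s - z w0 s‖ < ε / 8 := hw.2
    have h3 : ∑ s ∈ F0, ‖z w s‖ + ∑ s ∈ F \ F0, ‖z w s‖ ≤ sSup A := by
      rw [← Finset.sum_union Finset.disjoint_sdiff]
      exact hN w hw.1 _
    linarith
  refine ⟨w0, hw0, U, hUo, ⟨hw0, ?_⟩, ?_⟩
  · show ∑ s ∈ F0, ‖z w0 s - z w0 s‖ < ε / 8
    simp only [sub_self, norm_zero, Finset.sum_const_zero]
    positivity
  · intro w' hw' w'' hw'' F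
    have h1 : ∑ s ∈ F, ‖z w' s - z w'' s‖ = ∑ s ∈ F ∩ F0, ‖z w' s - z w'' s‖ + ∑ s ∈ F \ F0, ‖z w' s - z w'' s‖ :=
      (Finset.sum_inter_add_sum_sdiff F F0 _).symm
    have h2 : ∑ s ∈ F ∩ F0, ‖z w' s - z w'' s‖ ≤ ∑ s ∈ F0, ‖z w' s - z w0 s‖ + ∑ s ∈ F0, ‖z w'' s - z w0 s‖ := by
      rw [← Finset.sum_add_distrib]
      calc ∑ s ∈ F ∩ F0, ‖z w' s - z w'' s‖ ≤ ∑ s ∈ F0, ‖z w' s - z w'' s‖ :=
            Finset.sum_le_sum_of_subset_of_nonneg Finset.inter_subset_right (fun _ _ _ => norm_nonneg _)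
        _ ≤ _ := by
            apply Finset.sum_le_sum
            intro s _
            have : z w' s - z w'' s = (z w' s - z w0 s) - (z w'' s - z w0 s) := by ring
            rw [this]
            exact norm_sub_le _ _
    have h3 : ∑ s ∈ F \ F0, ‖z w' s - z w'' s‖ ≤ ∑ s ∈ F \ F0, ‖z w' s‖ + ∑ s ∈ F \ F0, ‖z w'' s‖ := by
      rw [← Finset.sum_add_distrib]
      exact Finset.sum_le_sum (fun s _ => norm_sub_le _ _)
    have h4 := key w' hw' F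
    have h5 := key w'' hw'' F
    have h6 : ∑ s ∈ F0, ‖z w' s - z w0 s‖ < ε / 8 := hw'.2
    have h7 : ∑ s ∈ F0, ‖z w'' s - z w0 s‖ < ε / 8 := hw''.2
    linarith

end Pool.Agent.H377R4.DF
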