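import Pool.Agent.H369R3.UT.Defs

/-! Project H369-UT, task G1 (helper377). -/

set_option autoImplicit false

namespace Pool.Agent.H377R4.UT

open Pool.Agent.H369R3.UT

theorem finrank_Cn (n : ℕ) : Module.finrank ℝ (Cn n) = 2 * n := by
  have h1 : Module.finrank ℝ (Cn n) = 2 * Module.finrank ℂ (Cn n) := finrank_real_of_complex (Cn n)
  rw [h1, finrank_euclideanSpace, Fintype.card_fin]

theorem taskG1 : TaskG1 := by
  intro n A hs hp ht
  have hT : (A : Cn n →ₗ[ℝ] Cn n).IsSymmetric := fun v w => hs v w
  have hP : (A : Cn n →ₗ[ℝ] Cn n).IsPositive := ⟨hT, fun v => by simpa using hp v⟩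
  have hn := finrank_Cn n
  have hnn : ∀ i, 0 ≤ hT.eigenvalues hn i := fun i => hP.nonneg_eigenvalues hn i
  have hdet : A.det = ∏ i, hT.eigenvalues hn i := by
    have := hT.det_eq_prod_eigenvalues hn
    simpa [ContinuousLinearMap.det] using this
  have htr : ∑ i, hT.eigenvalues hn i ≤ 2 * n := by
    have := LinearMap.IsSymmetric.trace_eq_sum_eigenvalues hn hT
    rw [this] at ht
    simpa using ht
  rw [hdet, abs_of_nonneg (Finset.prod_nonneg fun i _ => hnn i)]
  calc ∏ i, hT.eigenvalues hn i ≤ ∏ i, Real.exp (hT.eigenvalues hn i - 1) := by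
        apply Finset.prod_le_prod
        · intro i _; exact hnn i
        · intro i _
          have := Real.add_one_le_exp (hT.eigenvalues hn i - 1)
          linarith
    _ = Real.exp (∑ i, (hT.eigenvalues hn i - 1)) := (Real.exp_sum _ _).symm
    _ ≤ 1 := by
        rw [Real.exp_le_one_iff, Finset.sum_sub_distrib, Finset.sum_const, Finset.card_univ, Fintype.card_fin]
        simp
        linarith

end Pool.Agent.H377R4.UT
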