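import Mathlib

set_option autoImplicit false

/-! Pure cubic fields `ℚ(∛d)`, `d = p` or `2p`: coordinates of integral elements. -/

namespace Pool.Agent.H377R4

open Polynomial

theorem not_cube (p : ℕ) (hp : p.Prime) (h5 : 5 ≤ p) (d : ℕ) (hd : d = p ∨ d = 2 * p) (b : ℚ) :
    b ^ 3 ≠ (d : ℚ) := by
  intro h
  have : Fact p.Prime := ⟨hp⟩
  have hp0 : (p : ℚ) ≠ 0 := by exact_mod_cast hp.ne_zero
  have hb : b ≠ 0 := by
    rintro rfl
    have hd0 : (d : ℚ) = 0 := by rw [← h]; norm_num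
    have : d = 0 := by exact_mod_cast hd0
    rcases hd with h1 | h1 <;> omega
  have h1 : padicValRat p (b ^ 3) = 3 * padicValRat p b := by
    rw [padicValRat.pow]; norm_num
  have h2 : padicValRat p (d : ℚ) = 1 := by
    rcases hd with h3 | h3
    · rw [h3, padicValRat.self hp.one_lt]
    · rw [h3]
      push_cast
      rw [padicValRat.mul (by norm_num) hp0, padicValRat.self hp.one_lt]
      have : padicValRat p (2 : ℚ) = 0 := by
        have h4 : padicValRat p ((2 : ℕ) : ℚ) = 0 := by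
          rw [padicValRat.of_nat]
          rw [padicValNat.eq_zero_of_not_dvd]
          · norm_num
          · intro h5'
            have := Nat.le_of_dvd (by norm_num) h5'
            omega
        exact_mod_cast h4
      rw [this]; norm_num
  rw [h] at h1
  rw [h2] at h1
  omega

section
variable (p : ℕ) (hp : p.Prime) (h5 : 5 ≤ p) (d : ℕ) (hd : d = p ∨ d = 2 * p)
include hp h5 hd

theorem irr : Irreducible (X ^ 3 - C (d : ℚ) : ℚ[X]) :=
  X_pow_sub_C_irreducible_of_prime Nat.prime_three (not_cube p hp h5 d hd)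

theorem minpoly_t (t : ℝ) (ht : t ^ 3 = (d : ℝ)) : minpoly ℚ t = X ^ 3 - C (d : ℚ) := by
  symm
  apply minpoly.eq_of_irreducible_of_monic (irr p hp h5 d hd)
  · simp [ht]
  · exact monic_X_pow_sub_C _ (by norm_num)

/-- conjugates of integral elements are integral -/
theorem conj_int (t : ℝ) (ht : t ^ 3 = (d : ℝ)) (q0 q1 q2 : ℚ)
    (hint : IsIntegral ℤ ((q0 : ℝ) + q1 * t + q2 * t ^ 2)) (z : ℂ) (hz : z ^ 3 = (d : ℂ)) :
    IsIntegral ℤ ((q0 : ℂ) + q1 * z + q2 * z ^ 2) := by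
  obtain ⟨f, hf, hf0⟩ := hint
  refine ⟨f, hf, ?_⟩
  set g : ℚ[X] := (f.map (Int.castRingHom ℚ)).comp (C q0 + C q1 * X + C q2 * X ^ 2) with hg
  have h1 : aeval t g = 0 := by
    rw [hg, aeval_comp]
    simp only [map_add, map_mul, aeval_C, aeval_X, map_pow, eq_ratCast]
    rw [aeval_def, eval₂_map]
    have e : (algebraMap ℚ ℝ).comp (Int.castRingHom ℚ) = algebraMap ℤ ℝ := Subsingleton.elim _ _
    rw [e]
    exact hf0
  have h2 : (X ^ 3 - C (d : ℚ) : ℚ[X]) ∣ g := by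
    rw [← minpoly_t p hp h5 d hd t ht]
    exact minpoly.dvd ℚ t h1
  obtain ⟨k, hk⟩ := h2
  have h3 : aeval z g = 0 := by
    rw [hk]; simp [hz]
  rw [hg, aeval_comp] at h3
  simp only [map_add, map_mul, aeval_C, aeval_X, map_pow, eq_ratCast] at h3
  rw [aeval_def, eval₂_map] at h3
  have e : (algebraMap ℚ ℂ).comp (Int.castRingHom ℚ) = algebraMap ℤ ℂ := Subsingleton.elim _ _
  rw [e] at h3
  exact h3

/-- linear independence -/
theorem lin_indep (t : ℝ) (ht : t ^ 3 = (d : ℝ)) (q0 q1 q2 : ℚ)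
    (h : (q0 : ℝ) + q1 * t + q2 * t ^ 2 = 0) : q0 = 0 ∧ q1 = 0 ∧ q2 = 0 := by
  by_contra hne
  have hg : (C q0 + C q1 * X + C q2 * X ^ 2 : ℚ[X]) ≠ 0 := by
    intro h0
    apply hne
    have e0 := congrArg (fun f => coeff f 0) h0
    have e1 := congrArg (fun f => coeff f 1) h0
    have e2 := congrArg (fun f => coeff f 2) h0
    simp [coeff_X, coeff_C, coeff_X_pow] at e0 e1 e2
    exact ⟨e0, e1, e2⟩
  have h1 : aeval t (C q0 + C q1 * X + C q2 * X ^ 2 : ℚ[X]) = 0 := by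
    simp only [map_add, map_mul, aeval_C, aeval_X, map_pow, eq_ratCast]
    exact h
  have h2 := minpoly.degree_le_of_ne_zero ℚ t hg h1
  rw [minpoly_t p hp h5 d hd t ht, degree_X_pow_sub_C (by norm_num)] at h2
  have h3 : (C q0 + C q1 * X + C q2 * X ^ 2 : ℚ[X]).degree ≤ 2 := by
    compute_degree
  have h4 : ((3 : ℕ) : WithBot ℕ) ≤ 2 := h2.trans h3
  exact absurd h4 (by decide)

end

theorem exists_omega : ∃ w : ℂ, w ^ 2 + w + 1 = 0 := by
  have h : (X ^ 2 + X + 1 : ℂ[X]).degree ≠ 0 := by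
    have : (X ^ 2 + X + 1 : ℂ[X]).degree = 2 := by compute_degree!
    rw [this]; norm_num
  obtain ⟨w, hw⟩ := IsAlgClosed.exists_root (X ^ 2 + X + 1 : ℂ[X]) h
  refine ⟨w, ?_⟩
  simpa using hw

theorem rat_int (q : ℚ) (h : IsIntegral ℤ (q : ℂ)) : ∃ n : ℤ, q = n := by
  have h1 : IsIntegral ℤ q := by
    have : IsIntegral ℤ (algebraMap ℚ ℂ q) := by simpa using h
    exact (isIntegral_algebraMap_iff (algebraMap ℚ ℂ).injective).1 this
  obtain ⟨n, hn⟩ := IsIntegrallyClosed.isIntegral_iff.1 h1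
  exact ⟨n, by simpa using hn.symm⟩

end Pool.Agent.H377R4
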