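import Pool.Agent.H377R4.Ring

set_option autoImplicit false

namespace Pool.Agent.H377R4

open Z3

structure St where
  s : ℤ
  t : ℤ
  r0 : ℤ
  r1 : ℤ
  r2 : ℤ
  n : ℕ

/-- invariant -/
structure Inv (D p : ℤ) (τ : ℝ) (γ : Z3 D) (σ : St) : Prop where
  spos : 0 < σ.s
  div : ((σ.s : ℤ) : Z3 D) ∣ γ * F σ.t
  norm : nm γ ^ 2 = σ.s ^ 2
  res : ((p : ℤ) : Z3 D) ∣ γ - ⟨σ.r0, σ.r1, σ.r2⟩
  ub : |emb τ γ| ≤ 2 ^ σ.n
  q : qf τ γ ≤ 1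

theorem F_shift {D : ℤ} (T t : ℤ) : (F T : Z3 D) = F t + ((T - t : ℤ) : Z3 D) * ⟨T + t, 1, 0⟩ := by
  ext <;> simp [F] <;> ring

theorem F_dvd {D : ℤ} (γ : Z3 D) (s t T : ℤ) (h : ((s : ℤ) : Z3 D) ∣ γ * F t) (hT : s ∣ T - t) :
    ((s : ℤ) : Z3 D) ∣ γ * F T := by
  rw [F_shift T t, mul_add]
  apply dvd_add h
  have : ((s : ℤ) : Z3 D) ∣ ((T - t : ℤ) : Z3 D) := by
    obtain ⟨k, hk⟩ := hT
    exact ⟨(k : Z3 D), by rw [hk]; push_cast; ring⟩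
  exact (this.mul_right _).mul_left _

theorem cop_mul_dvd {D : ℤ} (s1 s2 : ℤ) (h : IsCoprime s1 s2) (x : Z3 D)
    (h1 : ((s1 : ℤ) : Z3 D) ∣ x) (h2 : ((s2 : ℤ) : Z3 D) ∣ x) : ((s1 * s2 : ℤ) : Z3 D) ∣ x := by
  rw [dvd_iff] at h1 h2 ⊢
  exact ⟨h.mul_dvd h1.1 h2.1, h.mul_dvd h1.2.1 h2.2.1, h.mul_dvd h1.2.2 h2.2.2⟩

/-- product, coprime case -/
theorem prodA {D : ℤ} (γ1 γ2 : Z3 D) (s1 s2 t1 t2 T : ℤ)
    (h1 : ((s1 : ℤ) : Z3 D) ∣ γ1 * F t1) (h2 : ((s2 : ℤ) : Z3 D) ∣ γ2 * F t2)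
    (hc : IsCoprime s1 s2) (hT1 : s1 ∣ T - t1) (hT2 : s2 ∣ T - t2) :
    ((s1 * s2 : ℤ) : Z3 D) ∣ (γ1 * γ2) * F T := by
  apply cop_mul_dvd s1 s2 hc
  · have := F_dvd γ1 s1 t1 T h1 hT1
    have h3 : γ1 * γ2 * F T = γ2 * (γ1 * F T) := by ring
    rw [h3]; exact this.mul_left _
  · have := F_dvd γ2 s2 t2 T h2 hT2
    have h3 : γ1 * γ2 * F T = γ1 * (γ2 * F T) := by ring
    rw [h3]; exact this.mul_left _

theorem cop_cancel {D : ℤ} (n m : ℤ) (hc : IsCoprime n m) (X : Z3 D)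
    (h : ((n : ℤ) : Z3 D) ∣ ((m : ℤ) : Z3 D) * X) : ((n : ℤ) : Z3 D) ∣ X := by
  rw [dvd_iff] at h ⊢
  simp only [mul_a, mul_b, mul_c, int_a, int_b, int_c, zero_mul, mul_zero, add_zero] at h
  exact ⟨hc.dvd_of_dvd_mul_left h.1, hc.dvd_of_dvd_mul_left h.2.1, hc.dvd_of_dvd_mul_left h.2.2⟩

/-- product, squaring case -/
theorem prodB {D : ℤ} (γ : Z3 D) (s t T : ℤ)
    (h1 : ((s : ℤ) : Z3 D) ∣ γ * F t)
    (hc : IsCoprime (s * s) (3 * T ^ 2)) (hT1 : s ∣ T - t) (hT2 : s * s ∣ D - T ^ 3) :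
    ((s * s : ℤ) : Z3 D) ∣ (γ * γ) * F T := by
  obtain ⟨w, hw⟩ := F_dvd γ s t T h1 hT1
  have hF : (F T : Z3 D) * F T = ((3 * T ^ 2 : ℤ) : Z3 D) * F T + ((D - T ^ 3 : ℤ) : Z3 D) * ⟨2 * T, 1, 0⟩ := by
    ext <;> simp only [F, mul_a, mul_b, mul_c, add_a, add_b, add_c, int_a, int_b, int_c] <;> ring
  obtain ⟨e, he⟩ := hT2
  have h2 : ((s * s : ℤ) : Z3 D) ∣ ((3 * T ^ 2 : ℤ) : Z3 D) * (γ * γ * F T) := by
    have h3 : ((3 * T ^ 2 : ℤ) : Z3 D) * (γ * γ * F T) = (γ * F T) * (γ * F T) - ((D - T ^ 3 : ℤ) : Z3 D) * (γ * γ * ⟨2 * T, 1, 0⟩) := by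
      have : (γ * F T) * (γ * F T) = (γ * γ) * (F T * F T) := by ring
      rw [this, hF]; ring
    rw [h3, hw, he]
    refine ⟨w * w - (e : Z3 D) * (γ * γ * ⟨2 * T, 1, 0⟩), ?_⟩
    push_cast; ring
  exact cop_cancel _ _ hc _ h2

/-- reduction step -/
theorem reduce {D p : ℤ} (τ : ℝ) (hτ : τ ^ 3 = (D : ℝ)) (hτ0 : 0 ≤ τ) (Θ : ℤ) (hΘ : τ ≤ Θ)
    (Γ : Z3 D) (S T : ℤ) (hS : 0 < S)
    (hdiv : ((S : ℤ) : Z3 D) ∣ Γ * F T) (hnorm : nm Γ ^ 2 = S ^ 2)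
    (ρ : Z3 D) (hres : ((p : ℤ) : Z3 D) ∣ Γ - ρ) (N : ℕ) (hub : |emb τ Γ| ≤ 2 ^ N) (hq : qf τ Γ ≤ 1)
    (x y z : ℤ) (c1 : S ∣ y - z * T) (c2 : S ∣ x - z * T ^ 2)
    (σ : St) (hs : 0 < σ.s)
    (c3 : σ.s ∣ ((⟨x, y, z⟩ : Z3 D) * F σ.t).c)
    (c4 : S * σ.s ∣ ((⟨x, y, z⟩ : Z3 D) * F σ.t).b - ((⟨x, y, z⟩ : Z3 D) * F σ.t).c * T)
    (c5 : S * σ.s ∣ ((⟨x, y, z⟩ : Z3 D) * F σ.t).a - ((⟨x, y, z⟩ : Z3 D) * F σ.t).c * T ^ 2)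
    (c6 : nm (⟨x, y, z⟩ : Z3 D) ^ 2 = σ.s ^ 2 * (S ^ 2) ^ 2)
    (c7 : IsCoprime p S)
    (c8 : ((p : ℤ) : Z3 D) ∣ ((S : ℤ) : Z3 D) * ⟨σ.r0, σ.r1, σ.r2⟩ - ρ * ⟨x, y, z⟩)
    (m : ℕ) (c9 : 2 ^ m * (|x| + |y| * Θ + |z| * Θ ^ 2) ≤ S) (c10 : N ≤ σ.n + m) :
    ∃ γ : Z3 D, Inv D p τ γ σ := by
  have hSR : (0 : ℝ) < S := by exact_mod_cast hS
  set β : Z3 D := ⟨x, y, z⟩ with hβ
  -- β = S * k + z F_T
  have hβF : ∃ k : Z3 D, β = ((S : ℤ) : Z3 D) * k + (z : Z3 D) * F T := by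
    obtain ⟨e1, h1⟩ := c1
    obtain ⟨e2, h2⟩ := c2
    refine ⟨⟨e2, e1, 0⟩, ?_⟩
    ext
    · simp [hβ, F]; linarith
    · simp [hβ, F]; linarith
    · simp [hβ, F]
  obtain ⟨k, hk⟩ := hβF
  have hΓβ : ((S : ℤ) : Z3 D) ∣ Γ * β := by
    rw [hk, mul_add]
    apply dvd_add
    · exact ((dvd_refl _).mul_right k).mul_left Γ
    · have : Γ * ((z : Z3 D) * F T) = (z : Z3 D) * (Γ * F T) := by ring
      rw [this]; exact hdiv.mul_left _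
  obtain ⟨γ, hγ⟩ := hΓβ
  have hemb : emb τ ((S : ℤ) : Z3 D) = S := by simp [emb]
  have hqfS : qf τ ((S : ℤ) : Z3 D) = (S : ℝ) ^ 2 := by simp [qf]
  have hb1 : |(x : ℝ)| + |(y : ℝ)| * τ + |(z : ℝ)| * τ ^ 2 ≤ |(x : ℝ)| + |(y : ℝ)| * Θ + |(z : ℝ)| * Θ ^ 2 := by
    have h1 : τ ^ 2 ≤ (Θ : ℝ) ^ 2 := pow_le_pow_left₀ hτ0 hΘ 2
    have := abs_nonneg (y : ℝ)
    have := abs_nonneg (z : ℝ)
    gcongr
  have hb2 : (2 : ℝ) ^ m * (|(x : ℝ)| + |(y : ℝ)| * Θ + |(z : ℝ)| * Θ ^ 2) ≤ S := by exact_mod_cast c9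
  have hb3 : (2 : ℝ) ^ m * (|(x : ℝ)| + |(y : ℝ)| * τ + |(z : ℝ)| * τ ^ 2) ≤ S :=
    (mul_le_mul_of_nonneg_left hb1 (by positivity)).trans hb2
  set W : ℝ := |(x : ℝ)| + |(y : ℝ)| * τ + |(z : ℝ)| * τ ^ 2 with hW
  have hW0 : 0 ≤ W := by rw [hW]; positivity
  have hWS : W ≤ S := by
    have : (1 : ℝ) ≤ 2 ^ m := one_le_pow₀ (by norm_num)
    nlinarith
  have hembβ : |emb τ β| ≤ W := by
    simp only [emb, hβ]
    calc |(x : ℝ) + y * τ + z * τ ^ 2| ≤ |(x : ℝ) + y * τ| + |z * τ ^ 2| := abs_add_le _ _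
      _ ≤ |(x : ℝ)| + |y * τ| + |z * τ ^ 2| := by gcongr; exact abs_add_le _ _
      _ = W := by rw [abs_mul, abs_mul, abs_of_nonneg hτ0, abs_of_nonneg (sq_nonneg τ)]
  have hqfβ : qf τ β ≤ W ^ 2 := by
    simp only [qf, hβ]
    have h1 : (x : ℝ) ^ 2 = |(x : ℝ)| ^ 2 := (sq_abs _).symm
    have h2 : ((y : ℝ) * τ) ^ 2 = (|(y : ℝ)| * τ) ^ 2 := by rw [mul_pow, mul_pow, sq_abs]
    have h3 : ((z : ℝ) * τ ^ 2) ^ 2 = (|(z : ℝ)| * τ ^ 2) ^ 2 := by rw [mul_pow, mul_pow, sq_abs]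
    have h4 : -((x : ℝ) * (y * τ)) ≤ |(x : ℝ)| * (|(y : ℝ)| * τ) := by
      have := neg_abs_le ((x : ℝ) * (y * τ))
      rw [abs_mul, abs_mul, abs_of_nonneg hτ0] at this
      linarith
    have h5 : -((x : ℝ) * (z * τ ^ 2)) ≤ |(x : ℝ)| * (|(z : ℝ)| * τ ^ 2) := by
      have := neg_abs_le ((x : ℝ) * (z * τ ^ 2))
      rw [abs_mul, abs_mul, abs_of_nonneg (sq_nonneg τ)] at this
      linarith
    have h6 : -((y : ℝ) * τ * (z * τ ^ 2)) ≤ (|(y : ℝ)| * τ) * (|(z : ℝ)| * τ ^ 2) := by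
      have := neg_abs_le ((y : ℝ) * τ * (z * τ ^ 2))
      rw [abs_mul, abs_mul, abs_mul, abs_of_nonneg hτ0, abs_of_nonneg (sq_nonneg τ)] at this
      linarith
    rw [h1, h2, h3, hW]
    have p1 : 0 ≤ |(x : ℝ)| := abs_nonneg _
    have p2 : 0 ≤ |(y : ℝ)| * τ := by positivity
    have p3 : 0 ≤ |(z : ℝ)| * τ ^ 2 := by positivity
    nlinarith [mul_nonneg p1 p2, mul_nonneg p1 p3, mul_nonneg p2 p3]
  have hnN : emb τ Γ * emb τ β = S * emb τ γ := by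
    rw [← emb_mul τ hτ, hγ, emb_mul τ hτ, hemb]
  have hqN : qf τ Γ * qf τ β = S ^ 2 * qf τ γ := by
    rw [← qf_mul τ hτ, hγ, qf_mul τ hτ, hqfS]
  refine ⟨γ, hs, ?_, ?_, ?_, ?_, ?_⟩
  · -- divisibility
    have h1 : ((S * σ.s : ℤ) : Z3 D) ∣ Γ * β * F σ.t := by
      have h2 : ∃ l : Z3 D, ∃ l2 : ℤ, β * F σ.t = ((S * σ.s : ℤ) : Z3 D) * l + ((σ.s * l2 : ℤ) : Z3 D) * F T := by
        obtain ⟨l2, h3⟩ := c3
        obtain ⟨l1, h4⟩ := c4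
        obtain ⟨l0, h5⟩ := c5
        refine ⟨⟨l0, l1, 0⟩, l2, ?_⟩
        ext
        · rw [add_a, mul_a (((S * σ.s : ℤ)) : Z3 D), mul_a (((σ.s * l2 : ℤ)) : Z3 D)]
          simp only [int_a, int_b, int_c, F]
          rw [← h3]
          simp only [F] at h5 ⊢
          linarith
        · rw [add_b, mul_b (((S * σ.s : ℤ)) : Z3 D), mul_b (((σ.s * l2 : ℤ)) : Z3 D)]
          simp only [int_a, int_b, int_c, F]
          rw [← h3]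
          simp only [F] at h4 ⊢
          linarith
        · rw [add_c, mul_c (((S * σ.s : ℤ)) : Z3 D), mul_c (((σ.s * l2 : ℤ)) : Z3 D)]
          simp only [int_a, int_b, int_c, F]
          rw [← h3]
          simp only [F]
          ring
      obtain ⟨l, l2, h6⟩ := h2
      rw [mul_assoc, h6, mul_add]
      apply dvd_add
      · exact ((dvd_refl _).mul_right l).mul_left Γ
      · obtain ⟨w, hw⟩ := hdiv
        refine ⟨(l2 : Z3 D) * w, ?_⟩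
        have : Γ * (((σ.s * l2 : ℤ) : Z3 D) * F T) = ((σ.s * l2 : ℤ) : Z3 D) * (Γ * F T) := by ring
        rw [this, hw]; push_cast; ring
    rw [hγ] at h1
    rw [dvd_iff] at h1 ⊢
    have hS0 : S ≠ 0 := hS.ne'
    obtain ⟨k1, k2, k3⟩ := h1
    have e : ((S : ℤ) : Z3 D) * γ * F σ.t = ((S : ℤ) : Z3 D) * (γ * F σ.t) := by ring
    rw [e] at k1 k2 k3
    refine ⟨?_, ?_, ?_⟩
    · apply (mul_dvd_mul_iff_left hS0).1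
      simpa using k1
    · apply (mul_dvd_mul_iff_left hS0).1
      simpa using k2
    · apply (mul_dvd_mul_iff_left hS0).1
      simpa using k3
  · -- norm
    have h1 : nm Γ * nm β = S ^ 3 * nm γ := by
      rw [← nm_mul, hγ, nm_mul, nm_int]
    have h2 : (S ^ 3) ^ 2 * nm γ ^ 2 = (S ^ 3) ^ 2 * σ.s ^ 2 := by
      calc (S ^ 3) ^ 2 * nm γ ^ 2 = (S ^ 3 * nm γ) ^ 2 := by ring
        _ = nm Γ ^ 2 * nm β ^ 2 := by rw [← h1]; ring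
        _ = S ^ 2 * (σ.s ^ 2 * (S ^ 2) ^ 2) := by rw [hnorm, c6]
        _ = (S ^ 3) ^ 2 * σ.s ^ 2 := by ring
    exact mul_left_cancel₀ (by positivity) h2
  · -- residues
    have h1 : ((p : ℤ) : Z3 D) ∣ ((S : ℤ) : Z3 D) * (γ - ⟨σ.r0, σ.r1, σ.r2⟩) := by
      have e : ((S : ℤ) : Z3 D) * (γ - ⟨σ.r0, σ.r1, σ.r2⟩) = (Γ - ρ) * β - (((S : ℤ) : Z3 D) * ⟨σ.r0, σ.r1, σ.r2⟩ - ρ * β) := by
        rw [mul_sub, ← hγ]; ring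
      rw [e]
      exact (hres.mul_right β).sub c8
    rw [dvd_iff] at h1 ⊢
    obtain ⟨k1, k2, k3⟩ := h1
    refine ⟨?_, ?_, ?_⟩
    · apply c7.dvd_of_dvd_mul_left
      simpa using k1
    · apply c7.dvd_of_dvd_mul_left
      simpa using k2
    · apply c7.dvd_of_dvd_mul_left
      simpa using k3
  · -- upper bound
    have h1 : (S : ℝ) * |emb τ γ| = |emb τ Γ| * |emb τ β| := by
      rw [← abs_mul, hnN, abs_mul, abs_of_pos hSR]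
    have h2 : (S : ℝ) * |emb τ γ| * 2 ^ m ≤ S * 2 ^ N := by
      rw [h1]
      calc |emb τ Γ| * |emb τ β| * 2 ^ m ≤ 2 ^ N * W * 2 ^ m := by gcongr
        _ = 2 ^ N * (2 ^ m * W) := by ring
        _ ≤ 2 ^ N * S := by gcongr
        _ = S * 2 ^ N := by ring
    have h3 : |emb τ γ| * 2 ^ m ≤ 2 ^ N := by
      have : (S : ℝ) * (|emb τ γ| * 2 ^ m) ≤ S * 2 ^ N := by linarith
      exact le_of_mul_le_mul_left this hSR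
    have h4 : (2 : ℝ) ^ N ≤ 2 ^ (σ.n + m) := pow_le_pow_right₀ (by norm_num) c10
    rw [pow_add] at h4
    exact le_of_mul_le_mul_right (h3.trans h4) (by positivity)
  · -- q
    have h1 : (S : ℝ) ^ 2 * qf τ γ ≤ S ^ 2 * 1 := by
      rw [← hqN]
      have h2 : qf τ β ≤ S ^ 2 := hqfβ.trans (pow_le_pow_left₀ hW0 hWS 2)
      have h3 := qf_nonneg τ β
      have h4 := qf_nonneg τ Γ
      nlinarith
    exact le_of_mul_le_mul_left h1 (by positivity)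

end Pool.Agent.H377R4
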