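import Pool.Agent.H377R4.Units

set_option autoImplicit false

namespace Pool.Agent.H377R4

section
variable (p : ℕ) (hp : p.Prime) (h5 : 5 ≤ p) (d : ℕ) (hd : d = p ∨ d = 2 * p)
  (t : ℝ) (ht : t ^ 3 = (d : ℝ))

/-- the three real quantities `a`, `b t`, `c t²` are all close to `u` -/
theorem close (u X Y Z : ℝ) (hu : 1 ≤ u) (hs : X + Y + Z = 3 * u)
    (hN : X ^ 3 + Y ^ 3 + Z ^ 3 - 3 * X * Y * Z = 27) :
    |X - u| < 5 / 2 ∧ |Y - u| < 5 / 2 ∧ |Z - u| < 5 / 2 := by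
  rw [factor_id, hs] at hN
  have h1 : (X - Y) ^ 2 + (Y - Z) ^ 2 + (Z - X) ^ 2 ≤ 18 := by
    have h0 : 0 ≤ (X - Y) ^ 2 + (Y - Z) ^ 2 + (Z - X) ^ 2 := by positivity
    nlinarith
  have hZ : Z = 3 * u - X - Y := by linarith
  subst hZ
  refine ⟨?_, ?_, ?_⟩ <;> rw [abs_lt] <;> constructor <;> nlinarith [sq_nonneg (X - u + 2 * (Y - u)), sq_nonneg (2 * (X - u) + (Y - u)), sq_nonneg (X - Y)]

include hp h5 hd ht

theorem t_pos : 0 < t := by
  by_contra h
  have h1 : t ≤ 0 := not_lt.1 h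
  have h2 : t ^ 3 ≤ 0 := by
    have : t ^ 3 = t * t ^ 2 := by ring
    rw [this]
    exact mul_nonpos_of_nonpos_of_nonneg h1 (sq_nonneg t)
  rw [ht] at h2
  have h3 : (0 : ℝ) < d := by
    have : 0 < d := by rcases hd with h | h <;> omega
    exact_mod_cast this
  linarith

theorem unit_close {u : ℝ} (hu : IsU t u) (h1 : 1 ≤ u) :
    ∃ a b c : ℤ, u = ((a : ℝ) + b * t + c * t ^ 2) / 3 ∧
      a ^ 3 + d * b ^ 3 + d ^ 2 * c ^ 3 - 3 * d * a * b * c = 27 ∧
      |(a : ℝ) - u| < 5 / 2 ∧ |(b : ℝ) * t - u| < 5 / 2 ∧ |(c : ℝ) * t ^ 2 - u| < 5 / 2 := by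
  obtain ⟨a, b, c, h, hN⟩ := unit_coords p hp h5 d hd t ht hu (by linarith)
  refine ⟨a, b, c, h, hN, ?_⟩
  apply close u _ _ _ h1
  · rw [h]; ring
  · have h7 : ((a ^ 3 + d * b ^ 3 + d ^ 2 * c ^ 3 - 3 * d * a * b * c : ℤ) : ℝ) = ((27 : ℤ) : ℝ) := by rw [hN]
    push_cast at h7
    rw [← ht] at h7
    linear_combination h7

/-- lower bound for units -/
theorem unit_lower (hbig : 125 ≤ d) {u : ℝ} (hu : IsU t u) (h1 : 1 < u) : t ^ 2 - 3 < u := by
  obtain ⟨a, b, c, h, hN, ha, hb, hc⟩ := unit_close p hp h5 d hd t ht hu h1.le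
  have htp := t_pos p hp h5 d hd t ht
  have ht5 : 5 ≤ t := by
    by_contra hlt
    have hlt' : t < 5 := not_le.1 hlt
    have : t ^ 3 < 5 ^ 3 := pow_lt_pow_left₀ hlt' htp.le (by norm_num)
    rw [ht] at this
    have h125 : (125 : ℝ) ≤ d := by exact_mod_cast hbig
    linarith
  rw [abs_lt] at ha hb hc
  have ht2 : 25 ≤ t ^ 2 := by nlinarith
  by_cases hc1 : 1 ≤ c
  · have hc1' : (1 : ℝ) ≤ c := by exact_mod_cast hc1
    nlinarith
  · exfalso
    have hc0 : c ≤ 0 := by omega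
    have hc0' : (c : ℝ) ≤ 0 := by exact_mod_cast hc0
    have hct : (c : ℝ) * t ^ 2 ≤ 0 := mul_nonpos_of_nonpos_of_nonneg hc0' (sq_nonneg t)
    have hu5 : u < 5 / 2 := by linarith [hc.1]
    have hcz : c = 0 := by
      by_contra hne
      have : c ≤ -1 := by omega
      have : (c : ℝ) ≤ -1 := by exact_mod_cast this
      nlinarith [hc.1]
    have hbz : b = 0 := by
      rcases lt_trichotomy b 0 with h6 | h6 | h6
      · exfalso
        have : b ≤ -1 := by omega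
        have : (b : ℝ) ≤ -1 := by exact_mod_cast this
        nlinarith [hb.1]
      · exact h6
      · exfalso
        have : 1 ≤ b := by omega
        have : (1 : ℝ) ≤ b := by exact_mod_cast this
        nlinarith [hb.2]
    rw [hcz, hbz] at hN h
    have ha3 : a ^ 3 = 3 ^ 3 := by linarith
    have ha3' : a = 3 := by
      have hodd : Odd 3 := by decide
      exact (Odd.strictMono_pow (R := ℤ) hodd).injective ha3
    rw [ha3'] at h
    norm_num at h
    linarith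

theorem finite_units (M : ℝ) : {u : ℝ | IsU t u ∧ 1 < u ∧ u ≤ M}.Finite := by
  have htp := t_pos p hp h5 d hd t ht
  have ht1 : 1 ≤ t := by
    by_contra hlt
    have hlt' : t < 1 := not_le.1 hlt
    have : t ^ 3 < 1 ^ 3 := pow_lt_pow_left₀ hlt' htp.le (by norm_num)
    rw [ht] at this
    have h1 : 1 ≤ d := by rcases hd with h | h <;> omega
    have h125 : (1 : ℝ) ≤ d := by exact_mod_cast h1
    linarith
  set K : ℤ := ⌈M⌉ + 3 with hK
  have hKM : M + 3 ≤ (K : ℝ) := by rw [hK]; push_cast; linarith [Int.le_ceil M]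
  have hfin : (Set.Icc (-K) K ×ˢ (Set.Icc (-K) K ×ˢ Set.Icc (-K) K) : Set (ℤ × ℤ × ℤ)).Finite :=
    (Set.finite_Icc _ _).prod ((Set.finite_Icc _ _).prod (Set.finite_Icc _ _))
  apply (hfin.image (fun x : ℤ × ℤ × ℤ => (((x.1 : ℝ) + x.2.1 * t + x.2.2 * t ^ 2) / 3))).subset
  rintro u ⟨hu, h1, hM⟩
  obtain ⟨a, b, c, h, _, ha, hb, hc⟩ := unit_close p hp h5 d hd t ht hu h1.le
  rw [abs_lt] at ha hb hc
  refine ⟨(a, b, c), ⟨⟨?_, ?_⟩, ⟨?_, ?_⟩, ⟨?_, ?_⟩⟩, h.symm⟩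
  · have : (-K : ℝ) ≤ a := by linarith [ha.1]
    exact_mod_cast this
  · have : (a : ℝ) ≤ K := by linarith [ha.2]
    exact_mod_cast this
  · by_contra hcon
    have h6 : b < -K := not_le.1 hcon
    have h7 : (b : ℝ) < -K := by exact_mod_cast h6
    nlinarith [hb.1]
  · by_contra hcon
    have h6 : K < b := not_le.1 hcon
    have h7 : (K : ℝ) < b := by exact_mod_cast h6
    nlinarith [hb.2]
  · by_contra hcon
    have h6 : c < -K := not_le.1 hcon
    have h7 : (c : ℝ) < -K := by exact_mod_cast h6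
    nlinarith [hc.1, mul_self_nonneg (t - 1)]
  · by_contra hcon
    have h6 : K < c := not_le.1 hcon
    have h7 : (K : ℝ) < c := by exact_mod_cast h6
    nlinarith [hc.2, mul_self_nonneg (t - 1)]

theorem exists_fund {g : ℝ} (hg : IsU t g) (h1 : 1 < g) :
    ∃ η : ℝ, IsU t η ∧ 1 < η ∧ (∀ u, IsU t u → 1 < u → η ≤ u) := by
  have hne : {u : ℝ | IsU t u ∧ 1 < u ∧ u ≤ g}.Nonempty := ⟨g, hg, h1, le_refl g⟩
  obtain ⟨η, ⟨h2, h3, h4⟩, hmin⟩ := Set.exists_min_image _ id (finite_units p hp h5 d hd t ht g) hne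
  refine ⟨η, h2, h3, ?_⟩
  intro u hu hu1
  by_cases h : u ≤ g
  · exact hmin u ⟨hu, hu1, h⟩
  · exact h4.trans (not_le.1 h).le

theorem IsU_pow {u : ℝ} (hu : IsU t u) (k : ℕ) : IsU t (u ^ k) := by
  induction k with
  | zero => refine ⟨⟨1, 0, 0, by norm_num⟩, ?_, ?_⟩ <;> simp <;> exact isIntegral_one
  | succ k ih => rw [pow_succ]; exact IsU.mul ht ih hu

theorem eq_pow {g η : ℝ} (hg : IsU t g) (h1 : 1 < g) (hη : IsU t η) (hη1 : 1 < η)
    (hmin : ∀ u, IsU t u → 1 < u → η ≤ u) : ∃ k : ℕ, g = η ^ k := by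
  obtain ⟨k, hk1, hk2⟩ := exists_nat_pow_near h1.le hη1
  refine ⟨k, ?_⟩
  have hpos : 0 < η ^ k := by positivity
  have hU : IsU t (g * (η ^ k)⁻¹) := IsU.mul ht hg (IsU.inv p hp h5 d hd t ht (IsU_pow p hp h5 d hd t ht hη k))
  have h3 : 1 ≤ g * (η ^ k)⁻¹ := by
    rw [← div_eq_mul_inv, le_div_iff₀ hpos]; linarith
  have h4 : g * (η ^ k)⁻¹ < η := by
    rw [← div_eq_mul_inv, div_lt_iff₀ hpos]
    rw [pow_succ] at hk2; linarith
  rcases h3.lt_or_eq with h5' | h5'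
  · exact absurd (hmin _ hU h5') (not_le.2 h4)
  · rw [← div_eq_mul_inv] at h5'
    rw [eq_div_iff hpos.ne'] at h5'
    linarith

/-- logarithmic-derivative additivity -/
theorem pow_coords {η : ℝ} (hη : IsU t η) (hη1 : 1 < η) (a b c : ℤ)
    (hη' : η = ((a : ℝ) + b * t + c * t ^ 2) / 3) (k : ℕ) :
    ∃ A B C : ℤ, η ^ k = ((A : ℝ) + B * t + C * t ^ 2) / 3 ∧
      A ^ 3 + d * B ^ 3 + d ^ 2 * C ^ 3 - 3 * d * A * B * C = 27 ∧
      (p : ℤ) ∣ B * a - k * b * A := by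
  have hpi : Prime (p : ℤ) := Nat.prime_iff_prime_int.1 hp
  have hpd : (p : ℤ) ∣ (d : ℤ) := by
    rcases hd with h | h
    · rw [h]
    · rw [h]; push_cast; exact Dvd.intro_left _ rfl
  have hp3 : ¬ (p : ℤ) ∣ 3 := by
    intro h
    have := Int.le_of_dvd (by norm_num) h
    omega
  induction k with
  | zero => refine ⟨3, 0, 0, by norm_num, by norm_num, by simp⟩
  | succ k ih =>
    obtain ⟨A, B, C, h1, _, h3⟩ := ih
    obtain ⟨A', B', C', h1', h2'⟩ := unit_coords p hp h5 d hd t ht (IsU_pow p hp h5 d hd t ht hη (k + 1)) (by positivity)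
    refine ⟨A', B', C', h1', h2', ?_⟩
    have hmul : ((A' : ℝ) + B' * t + C' * t ^ 2) * 3 = ((A : ℝ) + B * t + C * t ^ 2) * ((a : ℝ) + b * t + c * t ^ 2) := by
      have : η ^ (k + 1) = η ^ k * η := pow_succ _ _
      rw [h1', h1] at this
      rw [hη'] at this
      linear_combination 9 * this
    obtain ⟨f0, f1, _⟩ := coords_unique p hp h5 d hd t ht (A' * 3) (B' * 3) (C' * 3) (A * a + d * (B * c + C * b))
      (A * b + B * a + d * C * c) (A * c + B * b + C * a) (by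
        push_cast
        rw [← ht]
        linear_combination hmul)
    obtain ⟨e, he⟩ := hpd
    obtain ⟨w, hw⟩ := h3
    have h6 : (p : ℤ) ∣ 3 * (B' * a - (k + 1 : ℕ) * b * A') := by
      refine ⟨w * a + e * C * c * a - (k + 1) * b * (e * (B * c + C * b)), ?_⟩
      push_cast
      have f0' : A' * 3 = A * a + p * e * (B * c + C * b) := by rw [f0, he]
      have f1' : B' * 3 = A * b + B * a + p * e * C * c := by rw [f1, he]
      linear_combination a * f1' - (k + 1) * b * f0' + a * hw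
    rcases hpi.dvd_or_dvd h6 with h7 | h7
    · exact absurd h7 hp3
    · exact h7

/-- the final argument: a unit of `ℤ[t]` with `p ∣ g1`, not too large, refutes the statement -/
theorem neg_of_unit (hbig : 125 ≤ d) (g0 g1 g2 : ℤ)
    (hN : g0 ^ 3 + d * g1 ^ 3 + d ^ 2 * g2 ^ 3 - 3 * d * g0 * g1 * g2 = 1)
    (hp1 : (p : ℤ) ∣ g1) (hg2 : g2 ≠ 0)
    (h1 : 1 ≤ (g0 : ℝ) + g1 * t + g2 * t ^ 2)
    (hlt : (g0 : ℝ) + g1 * t + g2 * t ^ 2 < (t ^ 2 - 3) ^ p)
    (H : ∀ η : ℝ, IsU t η → 1 < η → (∀ u : ℝ, IsU t u → 1 < u → η ≤ u) →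
      ∀ a b c : ℤ, η = ((a : ℝ) + (b : ℝ) * t + (c : ℝ) * t ^ 2) / 3 → ¬ ((p : ℤ) ∣ b)) : False := by
  have hpi : Prime (p : ℤ) := Nat.prime_iff_prime_int.1 hp
  have hti : IsIntegral ℤ t := IsIntegral.of_pow (n := 3) (by norm_num) (by rw [ht]; exact isIntegral_natCast d)
  have hint : ∀ x y z : ℤ, IsIntegral ℤ ((x : ℝ) + y * t + z * t ^ 2) := by
    intro x y z
    exact ((isIntegral_algebraMap (R := ℤ) (x := x)).add ((isIntegral_algebraMap (R := ℤ) (x := y)).mul hti)).add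
      ((isIntegral_algebraMap (R := ℤ) (x := z)).mul (hti.pow 2))
  set g : ℝ := (g0 : ℝ) + g1 * t + g2 * t ^ 2 with hg
  have hinv : g⁻¹ = ((g0 ^ 2 - d * g1 * g2 : ℤ) : ℝ) + ((d * g2 ^ 2 - g0 * g1 : ℤ) : ℝ) * t + ((g1 ^ 2 - g0 * g2 : ℤ) : ℝ) * t ^ 2 := by
    rw [inv_eq_iff_eq_inv, eq_comm, inv_eq_iff_eq_inv, eq_comm]
    apply inv_eq_of_mul_eq_one_right
    have hN' : ((g0 ^ 3 + d * g1 ^ 3 + d ^ 2 * g2 ^ 3 - 3 * d * g0 * g1 * g2 : ℤ) : ℝ) = ((1 : ℤ) : ℝ) := by rw [hN]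
    push_cast at hN' ⊢
    rw [← ht] at hN' ⊢
    rw [hg]
    linear_combination hN'
  have hgU : IsU t g := by
    refine ⟨⟨g0, g1, g2, by rw [hg]; push_cast; ring⟩, hint _ _ _, ?_⟩
    rw [hinv]; exact hint _ _ _
  have hgne : g ≠ 1 := by
    intro h
    obtain ⟨_, _, h3⟩ := coords_unique p hp h5 d hd t ht g0 g1 g2 1 0 0 (by rw [← hg, h]; norm_num)
    exact hg2 h3
  have hg1 : 1 < g := lt_of_le_of_ne h1 (Ne.symm hgne)
  obtain ⟨η, hη, hη1, hmin⟩ := exists_fund p hp h5 d hd t ht hgU hg1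
  obtain ⟨k, hk⟩ := eq_pow p hp h5 d hd t ht hgU hg1 hη hη1 hmin
  obtain ⟨a, b, c, hη', hNη⟩ := unit_coords p hp h5 d hd t ht hη (by linarith)
  refine H η hη hη1 hmin a b c hη' ?_
  have hk0 : k ≠ 0 := by rintro rfl; rw [pow_zero] at hk; exact hgne hk
  have hkp : k < p := by
    by_contra hcon
    have hpk : p ≤ k := not_lt.1 hcon
    have hl := unit_lower p hp h5 d hd t ht hbig hη hη1
    have ht0 : 0 ≤ t ^ 2 - 3 := by
      have htp := t_pos p hp h5 d hd t ht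
      have ht5 : 5 ≤ t := by
        by_contra hlt
        have hlt' : t < 5 := not_le.1 hlt
        have : t ^ 3 < 5 ^ 3 := pow_lt_pow_left₀ hlt' htp.le (by norm_num)
        rw [ht] at this
        have h125 : (125 : ℝ) ≤ d := by exact_mod_cast hbig
        linarith
      nlinarith
    have h3 : (t ^ 2 - 3) ^ p ≤ η ^ p := pow_le_pow_left₀ ht0 hl.le p
    have h4 : η ^ p ≤ η ^ k := pow_le_pow_right₀ hη1.le hpk
    rw [← hk] at h4
    linarith
  obtain ⟨A, B, C, hA, hNA, hdiv⟩ := pow_coords p hp h5 d hd t ht hη hη1 a b c hη' k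
  have hAB : (A : ℝ) + B * t + C * t ^ 2 = ((3 * g0 : ℤ) : ℝ) + ((3 * g1 : ℤ) : ℝ) * t + ((3 * g2 : ℤ) : ℝ) * t ^ 2 := by
    rw [← hk, hg] at hA
    push_cast
    linear_combination -3 * hA
  obtain ⟨_, hB, _⟩ := coords_unique p hp h5 d hd t ht A B C _ _ _ hAB
  have hpB : (p : ℤ) ∣ B := by rw [hB]; exact hp1.mul_left 3
  have h6 : (p : ℤ) ∣ k * b * A := by
    have : (k : ℤ) * b * A = B * a - (B * a - k * b * A) := by ring
    rw [this]
    exact (hpB.mul_right a).sub hdiv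
  have hpd : (p : ℤ) ∣ (d : ℤ) := by
    rcases hd with h | h
    · rw [h]
    · rw [h]; push_cast; exact Dvd.intro_left _ rfl
  have hpA : ¬ (p : ℤ) ∣ A := by
    intro h
    have h7 : (p : ℤ) ∣ 27 := by
      rw [← hNA]
      apply dvd_sub
      · apply dvd_add
        · apply dvd_add
          · exact h.pow (by norm_num)
          · exact hpd.mul_right _
        · rw [pow_two, mul_assoc]; exact hpd.mul_right _
      · have : 3 * (d : ℤ) * A * B * C = A * (3 * d * B * C) := by ring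
        rw [this]; exact h.mul_right _
    have h8 : (p : ℤ) ∣ 3 ^ 3 := by norm_num; exact h7
    have h9 := hpi.dvd_of_dvd_pow h8
    have := Int.le_of_dvd (by norm_num) h9
    omega
  rcases hpi.dvd_or_dvd h6 with h7 | h7
  · rcases hpi.dvd_or_dvd h7 with h8 | h8
    · exfalso
      have h9 : p ∣ k := by exact_mod_cast h8
      have := Nat.le_of_dvd (Nat.pos_of_ne_zero hk0) h9
      omega
    · exact h8
  · exact absurd h7 hpA

end

end Pool.Agent.H377R4
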