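import Pool.Agent.H377R4.Cert
import Pool.Agent.H377R4.Main

set_option autoImplicit false

namespace Pool.Agent.H377R4

open Z3

structure Step where
  sq : Bool
  /-- explicit second factor (when `sq = false`) -/
  g0 : ℤ
  g1 : ℤ
  g2 : ℤ
  s2 : ℤ
  t2 : ℤ
  n2 : ℕ
  T : ℤ
  x : ℤ
  y : ℤ
  z : ℤ
  σ : St
  m : ℕ

def dv (a b : ℤ) : Bool := b % a == 0

theorem dv_iff {a b : ℤ} (h : dv a b = true) : a ∣ b := by
  simp only [dv, beq_iff_eq] at h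
  exact Int.dvd_of_emod_eq_zero h

def cop (a b : ℤ) : Bool := Nat.gcd a.natAbs b.natAbs == 1

theorem cop_iff {a b : ℤ} (h : cop a b = true) : IsCoprime a b := by
  simp only [cop, beq_iff_eq] at h
  exact Int.isCoprime_iff_gcd_eq_one.2 h

def chkRed (D p Θ : ℤ) (S N0 : ℤ) (N : ℕ) (ρ : Z3 D) (e : Step) : Bool :=
  let T := e.T
  let β : Z3 D := ⟨e.x, e.y, e.z⟩
  let W : Z3 D := β * F e.σ.t
  let ρ' : Z3 D := ρ * β
  decide (0 < S) && decide (0 < e.σ.s) && dv S (e.y - e.z * T) && dv S (e.x - e.z * T ^ 2) &&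
  dv e.σ.s W.c && dv (S * e.σ.s) (W.b - W.c * T) && dv (S * e.σ.s) (W.a - W.c * T ^ 2) &&
  (nm β ^ 2 == e.σ.s ^ 2 * (S ^ 2) ^ 2) && cop p S &&
  dv p (S * e.σ.r0 - ρ'.a) && dv p (S * e.σ.r1 - ρ'.b) && dv p (S * e.σ.r2 - ρ'.c) &&
  decide (2 ^ e.m * (|e.x| + |e.y| * Θ + |e.z| * Θ ^ 2) ≤ S) && decide (N ≤ e.σ.n + e.m) && (N0 == N0)

def chk (D p Θ θ0 : ℤ) (σ : St) (e : Step) : Bool :=
  if e.sq then
    cop (σ.s * σ.s) (3 * e.T ^ 2) && dv σ.s (e.T - σ.t) && dv (σ.s * σ.s) (D - e.T ^ 3) &&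
    chkRed D p Θ (σ.s * σ.s) 0 (σ.n + σ.n) ((⟨σ.r0, σ.r1, σ.r2⟩ : Z3 D) * ⟨σ.r0, σ.r1, σ.r2⟩) e
  else
    let g : Z3 D := ⟨e.g0, e.g1, e.g2⟩
    let w : Z3 D := g * F e.t2
    decide (0 < e.s2) && dv e.s2 w.a && dv e.s2 w.b && dv e.s2 w.c && (nm g ^ 2 == e.s2 ^ 2) &&
    decide (0 ≤ e.g0) && decide (0 ≤ e.g1) && decide (0 ≤ e.g2) && decide (e.s2 ≤ e.g0 + e.g1 * θ0 + e.g2 * θ0 ^ 2) &&
    decide (e.g0 + e.g1 * Θ + e.g2 * Θ ^ 2 ≤ 2 ^ e.n2) &&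
    cop σ.s e.s2 && dv σ.s (e.T - σ.t) && dv e.s2 (e.T - e.t2) &&
    chkRed D p Θ (σ.s * e.s2) 0 (σ.n + e.n2) ((⟨σ.r0, σ.r1, σ.r2⟩ : Z3 D) * g) e

def fin (p κ : ℤ) (σ : St) : Bool :=
  (σ.s == 1) && dv p σ.r1 && !(dv p σ.r2) && decide ((σ.n : ℤ) < κ * p)

def chkAll (D p Θ θ0 κ : ℤ) : St → List Step → Bool
  | σ, [] => fin p κ σ
  | σ, e :: es => chk D p Θ θ0 σ e && chkAll D p Θ θ0 κ e.σ es

theorem chkRed_sound {D p : ℤ} (τ : ℝ) (hτ : τ ^ 3 = (D : ℝ)) (hτ0 : 0 ≤ τ) (Θ : ℤ) (hΘ : τ ≤ Θ)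
    (Γ : Z3 D) (S : ℤ) (N0 : ℤ) (e : Step)
    (hdiv : ((S : ℤ) : Z3 D) ∣ Γ * F e.T) (hnorm : nm Γ ^ 2 = S ^ 2)
    (ρ : Z3 D) (hres : ((p : ℤ) : Z3 D) ∣ Γ - ρ) (N : ℕ) (hub : |emb τ Γ| ≤ 2 ^ N) (hq : qf τ Γ ≤ 1)
    (h : chkRed D p Θ S N0 N ρ e = true) : ∃ γ : Z3 D, Inv D p τ γ e.σ := by
  simp only [chkRed, Bool.and_eq_true, decide_eq_true_eq, beq_iff_eq] at h
  obtain ⟨⟨⟨⟨⟨⟨⟨⟨⟨⟨⟨⟨⟨⟨a1, a2⟩, a3⟩, a4⟩, a5⟩, a6⟩, a7⟩, a8⟩, a9⟩, a10⟩, a11⟩, a12⟩, a13⟩, a14⟩, _⟩ := h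
  refine reduce τ hτ hτ0 Θ hΘ Γ S e.T a1 hdiv hnorm ρ hres N hub hq e.x e.y e.z (dv_iff a3) (dv_iff a4) e.σ a2
    (dv_iff a5) (dv_iff a6) (dv_iff a7) a8 (cop_iff a9) ?_ e.m a13 a14
  rw [dvd_iff]
  have h1 := dv_iff a10
  have h2 := dv_iff a11
  have h3 := dv_iff a12
  refine ⟨?_, ?_, ?_⟩
  · simp only [sub_a, mul_a (((S : ℤ)) : Z3 D), int_a, int_b, int_c, zero_mul, mul_zero, add_zero]; exact h1
  · simp only [sub_b, mul_b (((S : ℤ)) : Z3 D), int_a, int_b, int_c, zero_mul, mul_zero, add_zero]; exact h2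
  · simp only [sub_c, mul_c (((S : ℤ)) : Z3 D), int_a, int_b, int_c, zero_mul, mul_zero, add_zero]; exact h3

theorem chk_sound {D p : ℤ} (τ : ℝ) (hτ : τ ^ 3 = (D : ℝ)) (hτ0 : 0 ≤ τ) (Θ : ℤ) (hΘ : τ ≤ Θ)
    (θ0 : ℤ) (hθ0 : 0 ≤ θ0) (hθ : (θ0 : ℝ) ≤ τ) (γ : Z3 D) (σ : St) (hI : Inv D p τ γ σ) (e : Step)
    (h : chk D p Θ θ0 σ e = true) : ∃ γ : Z3 D, Inv D p τ γ e.σ := by
  by_cases hs : e.sq = true
  · simp only [chk, hs, if_true, Bool.and_eq_true] at h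
    obtain ⟨⟨⟨b1, b2⟩, b3⟩, b4⟩ := h
    refine chkRed_sound τ hτ hτ0 Θ hΘ (γ * γ) (σ.s * σ.s) 0 e
      (prodB γ σ.s σ.t e.T hI.div (cop_iff b1) (dv_iff b2) (dv_iff b3)) ?_ _ ?_ _ ?_ ?_ b4
    · rw [nm_mul]
      have := hI.norm
      calc (nm γ * nm γ) ^ 2 = nm γ ^ 2 * nm γ ^ 2 := by ring
        _ = (σ.s * σ.s) ^ 2 := by rw [this]; ring
    · obtain ⟨w, hw⟩ := hI.res
      refine ⟨w * (γ + ⟨σ.r0, σ.r1, σ.r2⟩), ?_⟩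
      rw [← mul_assoc, ← hw]; ring
    · rw [emb_mul τ hτ, abs_mul, pow_add]
      exact mul_le_mul hI.ub hI.ub (abs_nonneg _) (by positivity)
    · rw [qf_mul τ hτ]
      have := qf_nonneg τ γ
      nlinarith [hI.q]
  · have hs' : e.sq = false := by simpa using hs
    simp only [chk, hs', Bool.false_eq_true, if_false, Bool.and_eq_true, decide_eq_true_eq, beq_iff_eq] at h
    obtain ⟨⟨⟨⟨⟨⟨⟨⟨⟨⟨⟨⟨⟨b1, b2⟩, b3⟩, b4⟩, b5⟩, b6⟩, b7⟩, b8⟩, b9⟩, b10⟩, b11⟩, b12⟩, b13⟩, b14⟩ := h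
    set g : Z3 D := ⟨e.g0, e.g1, e.g2⟩ with hg
    have hgF : ((e.s2 : ℤ) : Z3 D) ∣ g * F e.t2 := by
      rw [dvd_iff]; exact ⟨dv_iff b2, dv_iff b3, dv_iff b4⟩
    have c0 : (0 : ℝ) ≤ e.g0 := by exact_mod_cast b6
    have c1 : (0 : ℝ) ≤ e.g1 := by exact_mod_cast b7
    have c2 : (0 : ℝ) ≤ e.g2 := by exact_mod_cast b8
    have hθ0R : (0 : ℝ) ≤ θ0 := by exact_mod_cast hθ0
    have hemb0 : (e.s2 : ℝ) ≤ emb τ g := by
      have h1 : (e.s2 : ℝ) ≤ e.g0 + e.g1 * θ0 + e.g2 * θ0 ^ 2 := by exact_mod_cast b9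
      have h2 : (θ0 : ℝ) ^ 2 ≤ τ ^ 2 := pow_le_pow_left₀ hθ0R hθ 2
      simp only [emb, hg]
      have : (e.g0 : ℝ) + e.g1 * θ0 + e.g2 * θ0 ^ 2 ≤ e.g0 + e.g1 * τ + e.g2 * τ ^ 2 := by gcongr
      linarith
    have hemb1 : emb τ g ≤ 2 ^ e.n2 := by
      have h1 : (e.g0 : ℝ) + e.g1 * Θ + e.g2 * Θ ^ 2 ≤ 2 ^ e.n2 := by exact_mod_cast b10
      have h2 : τ ^ 2 ≤ (Θ : ℝ) ^ 2 := pow_le_pow_left₀ hτ0 hΘ 2
      simp only [emb, hg]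
      have : (e.g0 : ℝ) + e.g1 * τ + e.g2 * τ ^ 2 ≤ e.g0 + e.g1 * Θ + e.g2 * Θ ^ 2 := by gcongr
      linarith
    have hs2 : (0 : ℝ) < e.s2 := by exact_mod_cast b1
    have hembpos : 0 < emb τ g := by linarith
    have hqg : qf τ g ≤ 1 := by
      have h1 := emb_qf τ hτ g
      have h2 : ((nm g : ℤ) : ℝ) ≤ e.s2 := by
        have : nm g ≤ e.s2 := by nlinarith [sq_nonneg (nm g - e.s2), abs_le_of_sq_le_sq' (le_of_eq b5) b1.le]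
        exact_mod_cast this
      by_contra hcon
      have h3 : 1 < qf τ g := not_le.1 hcon
      nlinarith
    refine chkRed_sound τ hτ hτ0 Θ hΘ (γ * g) (σ.s * e.s2) 0 e
      (prodA γ g σ.s e.s2 σ.t e.t2 e.T hI.div hgF (cop_iff b11) (dv_iff b12) (dv_iff b13)) ?_ _ ?_ _ ?_ ?_ b14
    · rw [nm_mul]
      calc (nm γ * nm g) ^ 2 = nm γ ^ 2 * nm g ^ 2 := by ring
        _ = (σ.s * e.s2) ^ 2 := by rw [hI.norm, b5]; ring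
    · obtain ⟨w, hw⟩ := hI.res
      refine ⟨w * g, ?_⟩
      rw [← mul_assoc, ← hw]; ring
    · rw [emb_mul τ hτ, abs_mul, pow_add]
      refine mul_le_mul hI.ub ?_ (abs_nonneg _) (by positivity)
      rw [abs_of_pos hembpos]; exact hemb1
    · rw [qf_mul τ hτ]
      have h1 := qf_nonneg τ γ
      have h2 := qf_nonneg τ g
      nlinarith [hI.q]

theorem chkAll_sound {D p : ℤ} (τ : ℝ) (hτ : τ ^ 3 = (D : ℝ)) (hτ0 : 0 ≤ τ) (Θ : ℤ) (hΘ : τ ≤ Θ)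
    (θ0 : ℤ) (hθ0 : 0 ≤ θ0) (hθ : (θ0 : ℝ) ≤ τ) (κ : ℤ) (es : List Step) :
    ∀ (γ : Z3 D) (σ : St), Inv D p τ γ σ → chkAll D p Θ θ0 κ σ es = true →
    ∃ (γ : Z3 D) (σ : St), Inv D p τ γ σ ∧ fin p κ σ = true := by
  induction es with
  | nil => intro γ σ hI h; exact ⟨γ, σ, hI, h⟩
  | cons e es ih =>
    intro γ σ hI h
    simp only [chkAll, Bool.and_eq_true] at h
    obtain ⟨γ', hI'⟩ := chk_sound τ hτ hτ0 Θ hΘ θ0 hθ0 hθ γ σ hI e h.1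
    exact ih γ' e.σ hI' h.2

def st0 : St := ⟨1, 0, 1, 0, 0, 0⟩

theorem inv0 (D p : ℤ) (τ : ℝ) : Inv D p τ (1 : Z3 D) st0 := by
  refine ⟨by norm_num [st0], ?_, ?_, ?_, ?_, ?_⟩
  · simp [st0]
  · simp [st0, nm]
  · have : (1 : Z3 D) = ⟨1, 0, 0⟩ := rfl
    simp only [st0, this, sub_self]; exact dvd_zero _
  · simp [emb, st0]
  · simp [qf]

/-- master theorem -/
theorem master (p : ℕ) (hp : p.Prime) (h5 : 5 ≤ p) (d : ℕ) (hd : d = p ∨ d = 2 * p) (hbig : 125 ≤ d)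
    (Θ θ0 : ℤ) (κ : ℕ) (hθ0 : 0 ≤ θ0) (hΘ : (d : ℤ) ≤ Θ ^ 3) (hΘ0 : 0 ≤ Θ) (hθ : θ0 ^ 3 ≤ (d : ℤ)) (hκ : (2 : ℤ) ^ κ ≤ θ0 ^ 2 - 3)
    (es : List Step) (hes : chkAll d p Θ θ0 κ st0 es = true)
    (t : ℝ) (ht : t ^ 3 = (d : ℝ))
    (H : ∀ η : ℝ, IsU t η → 1 < η → (∀ u : ℝ, IsU t u → 1 < u → η ≤ u) →
      ∀ a b c : ℤ, η = ((a : ℝ) + (b : ℝ) * t + (c : ℝ) * t ^ 2) / 3 → ¬ ((p : ℤ) ∣ b)) : False := by
  have htp := t_pos p hp h5 d hd t ht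
  have ht' : t ^ 3 = ((d : ℤ) : ℝ) := by rw [ht]; norm_cast
  have h1 : t ≤ Θ := by
    have h2 : t ^ 3 ≤ (Θ : ℝ) ^ 3 := by rw [ht']; exact_mod_cast hΘ
    exact le_of_pow_le_pow_left₀ (by norm_num) (by exact_mod_cast hΘ0) h2
  have h2 : (θ0 : ℝ) ≤ t := by
    have h2 : (θ0 : ℝ) ^ 3 ≤ t ^ 3 := by rw [ht']; exact_mod_cast hθ
    exact le_of_pow_le_pow_left₀ (by norm_num) htp.le h2
  obtain ⟨γ, σ, hI, hf⟩ := chkAll_sound (D := (d : ℤ)) (p := (p : ℤ)) t ht' htp.le Θ h1 θ0 hθ0 h2 κ es 1 st0 (inv0 _ _ _) hes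
  simp only [fin, Bool.and_eq_true, beq_iff_eq, decide_eq_true_eq, Bool.not_eq_true'] at hf
  obtain ⟨⟨⟨f1, f2⟩, f3⟩, f4⟩ := hf
  have hres := (dvd_iff _ _).1 hI.res
  simp only [sub_b, sub_c] at hres
  obtain ⟨_, hb, hc⟩ := hres
  have hpb : (p : ℤ) ∣ γ.b := by
    have := dvd_add hb (dv_iff f2)
    simpa using this
  have hpc : γ.c ≠ 0 := by
    intro h0
    rw [h0] at hc
    have : dv (p : ℤ) σ.r2 = true := by
      simp only [dv, beq_iff_eq]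
      apply Int.emod_eq_zero_of_dvd
      have := (dvd_neg (a := (p : ℤ)) (b := 0 - σ.r2)).2 hc
      simpa using this
    rw [this] at f3; exact absurd f3 (by decide)
  have hn1 : nm γ ^ 2 = 1 := by rw [hI.norm, f1]; norm_num
  have hN : nm γ = 1 ∨ nm γ = -1 := by
    have h : (nm γ - 1) * (nm γ + 1) = 0 := by linear_combination hn1
    rcases mul_eq_zero.1 h with h | h
    · left; linarith
    · right; linarith
  have hkp : |emb t γ| < (t ^ 2 - 3) ^ p := by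
    have h3 : (2 : ℝ) ^ κ ≤ t ^ 2 - 3 := by
      have h4 : ((2 : ℤ) ^ κ : ℝ) ≤ (θ0 : ℝ) ^ 2 - 3 := by exact_mod_cast hκ
      have h5' : (θ0 : ℝ) ^ 2 ≤ t ^ 2 := pow_le_pow_left₀ (by exact_mod_cast hθ0) h2 2
      push_cast at h4
      linarith
    have h4 : σ.n < κ * p := by exact_mod_cast f4
    calc |emb t γ| ≤ 2 ^ σ.n := hI.ub
      _ < 2 ^ (κ * p) := pow_lt_pow_right₀ (by norm_num) h4
      _ = (2 ^ κ) ^ p := pow_mul _ _ _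
      _ ≤ (t ^ 2 - 3) ^ p := pow_le_pow_left₀ (by positivity) h3 p
  have hge : 1 ≤ |emb t γ| := by
    have h3 := emb_qf t ht' γ
    have h4 : |emb t γ| * qf t γ = 1 := by
      have : |emb t γ * qf t γ| = 1 := by
        rw [h3]
        have : |nm γ| = 1 := by
          rcases hN with h | h <;> simp [h]
        exact_mod_cast this
      rwa [abs_mul, abs_of_nonneg (qf_nonneg t γ)] at this
    have h5' := hI.q
    have h6 := qf_nonneg t γ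
    have h7 := abs_nonneg (emb t γ)
    nlinarith
  rcases hN with hN | hN
  · have hpos : 0 < emb t γ := by
      by_contra hcon
      have h3 := emb_qf t ht' γ
      rw [hN] at h3
      have h6 := qf_nonneg t γ
      have : emb t γ ≤ 0 := not_lt.1 hcon
      push_cast at h3
      nlinarith
    rw [abs_of_pos hpos] at hge hkp
    exact neg_of_unit p hp h5 d hd t ht hbig γ.a γ.b γ.c hN hpb hpc hge hkp H
  · have hneg : emb t γ < 0 := by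
      by_contra hcon
      have h3 := emb_qf t ht' γ
      rw [hN] at h3
      have h6 := qf_nonneg t γ
      have : 0 ≤ emb t γ := not_lt.1 hcon
      push_cast at h3
      nlinarith
    rw [abs_of_neg hneg] at hge hkp
    simp only [emb] at hge hkp
    refine neg_of_unit p hp h5 d hd t ht hbig (-γ.a) (-γ.b) (-γ.c) ?_ (by simpa using hpb) (by simpa using hpc) ?_ ?_ H
    · simp only [nm] at hN
      linear_combination -hN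
    · push_cast; linarith
    · push_cast
      have : -(γ.a : ℝ) + -(γ.b : ℝ) * t + -(γ.c : ℝ) * t ^ 2 = -((γ.a : ℝ) + γ.b * t + γ.c * t ^ 2) := by ring
      rw [this]; exact hkp

end Pool.Agent.H377R4
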