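import Pool.Agent.H377R4.Base

set_option autoImplicit false

namespace Pool.Agent.H377R4

section
variable (p : ℕ) (hp : p.Prime) (h5 : 5 ≤ p) (d : ℕ) (hd : d = p ∨ d = 2 * p)

include hp h5 hd in
theorem dvd_of_dvd_cube (b : ℤ) (h : (d : ℤ) ∣ b ^ 3) : (d : ℤ) ∣ b := by
  have hpi : Prime (p : ℤ) := Nat.prime_iff_prime_int.1 hp
  rcases hd with h1 | h1
  · rw [h1] at h ⊢; exact hpi.dvd_of_dvd_pow h
  · rw [h1] at h ⊢
    push_cast at h ⊢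
    have h2 : (2 : ℤ) ∣ b := by
      have : (2 : ℤ) ∣ b ^ 3 := (Dvd.intro _ rfl : (2 : ℤ) ∣ 2 * (p : ℤ)).trans h
      exact Int.prime_two.dvd_of_dvd_pow this
    have h3 : (p : ℤ) ∣ b := by
      have : (p : ℤ) ∣ b ^ 3 := (Dvd.intro_left _ rfl : (p : ℤ) ∣ 2 * (p : ℤ)).trans h
      exact hpi.dvd_of_dvd_pow this
    have hc : IsCoprime (2 : ℤ) (p : ℤ) := by
      have h6 : Nat.Coprime 2 p := by
        rw [Nat.coprime_primes Nat.prime_two hp]; omega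
      exact_mod_cast Nat.isCoprime_iff_coprime.2 h6
    exact hc.mul_dvd h2 h3

include hp h5 hd in
theorem int_coords (t : ℝ) (ht : t ^ 3 = (d : ℝ)) (q0 q1 q2 : ℚ)
    (hint : IsIntegral ℤ ((q0 : ℝ) + q1 * t + q2 * t ^ 2)) :
    ∃ a b c m : ℤ, q0 = a / 3 ∧ q1 = b / 3 ∧ q2 = c / 3 ∧
      a ^ 3 + d * b ^ 3 + d ^ 2 * c ^ 3 - 3 * d * a * b * c = 27 * m := by
  obtain ⟨w, hw⟩ := exists_omega
  have hd0 : d ≠ 0 := by rcases hd with h | h <;> omega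
  have hdq : (d : ℚ) ≠ 0 := by exact_mod_cast hd0
  have hdi : (d : ℤ) ≠ 0 := by exact_mod_cast hd0
  have hw3 : w ^ 3 = 1 := by linear_combination (w - 1) * hw
  have ht' : (t : ℂ) ^ 3 = (d : ℂ) := by exact_mod_cast congrArg (fun x : ℝ => (x : ℂ)) ht
  set z0 : ℂ := (t : ℂ) with hz0
  have hz1 : (w * z0) ^ 3 = (d : ℂ) := by rw [mul_pow, hw3, ht', one_mul]
  have hz2 : (w ^ 2 * z0) ^ 3 = (d : ℂ) := by
    rw [mul_pow, ← pow_mul, mul_comm 2 3, pow_mul, hw3, ht']; ring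
  have i0 := conj_int p hp h5 d hd t ht q0 q1 q2 hint z0 ht'
  have i1 := conj_int p hp h5 d hd t ht q0 q1 q2 hint _ hz1
  have i2 := conj_int p hp h5 d hd t ht q0 q1 q2 hint _ hz2
  have hdC : IsIntegral ℤ (d : ℂ) := isIntegral_natCast d
  have j0 : IsIntegral ℤ z0 := IsIntegral.of_pow (n := 3) (by norm_num) (by rw [ht']; exact hdC)
  have j1 : IsIntegral ℤ (w * z0) := IsIntegral.of_pow (n := 3) (by norm_num) (by rw [hz1]; exact hdC)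
  have j2 : IsIntegral ℤ (w ^ 2 * z0) := IsIntegral.of_pow (n := 3) (by norm_num) (by rw [hz2]; exact hdC)
  -- traces
  obtain ⟨a, ha⟩ := rat_int (3 * q0) (by
    have e : ((3 * q0 : ℚ) : ℂ) = ((q0 : ℂ) + q1 * z0 + q2 * z0 ^ 2) + ((q0 : ℂ) + q1 * (w * z0) + q2 * (w * z0) ^ 2)
        + ((q0 : ℂ) + q1 * (w ^ 2 * z0) + q2 * (w ^ 2 * z0) ^ 2) := by
      push_cast
      linear_combination (-(q1 : ℂ) * z0 - (q2 : ℂ) * z0 ^ 2 * (w ^ 2 - w + 1)) * hw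
    rw [e]
    exact (i0.add i1).add i2)
  obtain ⟨C, hC⟩ := rat_int (3 * d * q2) (by
    have e : ((3 * d * q2 : ℚ) : ℂ) = z0 * ((q0 : ℂ) + q1 * z0 + q2 * z0 ^ 2) + (w * z0) * ((q0 : ℂ) + q1 * (w * z0) + q2 * (w * z0) ^ 2)
        + (w ^ 2 * z0) * ((q0 : ℂ) + q1 * (w ^ 2 * z0) + q2 * (w ^ 2 * z0) ^ 2) := by
      push_cast
      linear_combination (-(q0 : ℂ) * z0 - (q1 : ℂ) * z0 ^ 2 * (w ^ 2 - w + 1)) * hw - (q2 : ℂ) * (1 + w ^ 3 + w ^ 6) * ht' - (q2 : ℂ) * d * (w ^ 3 + 2) * hw3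
    rw [e]
    exact ((j0.mul i0).add (j1.mul i1)).add (j2.mul i2))
  obtain ⟨B, hB⟩ := rat_int (3 * d * q1) (by
    have e : ((3 * d * q1 : ℚ) : ℂ) = (z0 * z0) * ((q0 : ℂ) + q1 * z0 + q2 * z0 ^ 2) + ((w * z0) * (w * z0)) * ((q0 : ℂ) + q1 * (w * z0) + q2 * (w * z0) ^ 2)
        + ((w ^ 2 * z0) * (w ^ 2 * z0)) * ((q0 : ℂ) + q1 * (w ^ 2 * z0) + q2 * (w ^ 2 * z0) ^ 2) := by
      push_cast
      linear_combination (-(q0 : ℂ) * z0 ^ 2 * (w ^ 2 - w + 1) - (q2 : ℂ) * z0 ^ 4 * (w ^ 2 - w + 1) * (w ^ 4 - w ^ 2 + 1)) * hw - (q1 : ℂ) * (1 + w ^ 3 + w ^ 6) * ht' - (q1 : ℂ) * d * (w ^ 3 + 2) * hw3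
    rw [e]
    exact (((j0.mul j0).mul i0).add ((j1.mul j1).mul i1)).add ((j2.mul j2).mul i2))
  obtain ⟨m, hm⟩ := rat_int (q0 ^ 3 + d * q1 ^ 3 + d ^ 2 * q2 ^ 3 - 3 * d * q0 * q1 * q2) (by
    have e1 : (d : ℂ) = z0 ^ 3 := ht'.symm
    have hw2 : w ^ 2 = -w - 1 := by linear_combination hw
    have hw4 : w ^ 4 = w := by linear_combination w * hw3
    have key : ((q0 : ℂ) + q1 * (w * z0) + q2 * (w * z0) ^ 2) * ((q0 : ℂ) + q1 * (w ^ 2 * z0) + q2 * (w ^ 2 * z0) ^ 2)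
       = q0 ^ 2 + q1 ^ 2 * z0 ^ 2 + q2 ^ 2 * z0 ^ 4 - q0 * q1 * z0 - q0 * q2 * z0 ^ 2 - q1 * q2 * z0 ^ 3 := by
      have h6 : w ^ 6 = 1 := by linear_combination (w ^ 3 + 1) * hw3
      have h5' : w ^ 5 = w ^ 2 := by linear_combination w ^ 2 * hw3
      ring_nf
      rw [h6, h5', hw4, hw3, hw2]
      ring
    have e : ((q0 ^ 3 + d * q1 ^ 3 + d ^ 2 * q2 ^ 3 - 3 * d * q0 * q1 * q2 : ℚ) : ℂ) = ((q0 : ℂ) + q1 * z0 + q2 * z0 ^ 2) * (((q0 : ℂ) + q1 * (w * z0) + q2 * (w * z0) ^ 2)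
        * ((q0 : ℂ) + q1 * (w ^ 2 * z0) + q2 * (w ^ 2 * z0) ^ 2)) := by
      rw [key]
      push_cast
      rw [e1]
      ring
    rw [e]
    exact i0.mul (i1.mul i2))
  -- now the arithmetic
  have hq0 : q0 = a / 3 := by rw [← ha]; ring
  have hq1 : q1 = B / (3 * d) := by rw [← hB]; field_simp
  have hq2 : q2 = C / (3 * d) := by rw [← hC]; field_simp
  have h27 : (27 * (d : ℤ) ^ 2 * m) = a ^ 3 * d ^ 2 + B ^ 3 + d * C ^ 3 - 3 * d * a * B * C := by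
    have : (27 * (d : ℚ) ^ 2 * m) = a ^ 3 * d ^ 2 + B ^ 3 + d * C ^ 3 - 3 * d * a * B * C := by
      rw [← hm, hq0, hq1, hq2]; field_simp; ring
    exact_mod_cast this
  have hBd : (d : ℤ) ∣ B := by
    apply dvd_of_dvd_cube p hp h5 d hd
    refine ⟨27 * d * m - a ^ 3 * d - C ^ 3 + 3 * a * B * C, ?_⟩
    linear_combination -h27
  obtain ⟨b, rfl⟩ := hBd
  have h27' : (27 * (d : ℤ) * m) = a ^ 3 * d + d ^ 2 * b ^ 3 + C ^ 3 - 3 * d * a * b * C := by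
    have : (d : ℤ) * (27 * (d : ℤ) * m) = d * (a ^ 3 * d + d ^ 2 * b ^ 3 + C ^ 3 - 3 * d * a * b * C) := by
      linear_combination h27
    exact mul_left_cancel₀ hdi this
  have hCd : (d : ℤ) ∣ C := by
    apply dvd_of_dvd_cube p hp h5 d hd
    refine ⟨27 * m - a ^ 3 - d * b ^ 3 + 3 * a * b * C, ?_⟩
    linear_combination -h27'
  obtain ⟨c, rfl⟩ := hCd
  refine ⟨a, b, c, m, hq0, ?_, ?_, ?_⟩
  · rw [hq1]; push_cast; field_simp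
  · rw [hq2]; push_cast; field_simp
  · have : (d : ℤ) * (a ^ 3 + d * b ^ 3 + d ^ 2 * c ^ 3 - 3 * d * a * b * c) = d * (27 * m) := by
      linear_combination -h27'
    exact mul_left_cancel₀ hdi this

end

end Pool.Agent.H377R4
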