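import Pool.Agent.H377R4.Main

set_option autoImplicit false

namespace Pool.Agent.H377R4

section
variable (p : ℕ) (hp : p.Prime) (h5 : 5 ≤ p) (d : ℕ) (hd : d = p ∨ d = 2 * p)
  (t : ℝ) (ht : t ^ 3 = (d : ℝ))

include hp h5 hd ht

theorem z_unit (g0 g1 g2 : ℤ)
    (hN : g0 ^ 3 + d * g1 ^ 3 + d ^ 2 * g2 ^ 3 - 3 * d * g0 * g1 * g2 = 1) :
    IsU t ((g0 : ℝ) + g1 * t + g2 * t ^ 2) ∧
    ((g0 : ℝ) + g1 * t + g2 * t ^ 2)⁻¹ = ((g0 ^ 2 - d * g1 * g2 : ℤ) : ℝ) + ((d * g2 ^ 2 - g0 * g1 : ℤ) : ℝ) * t + ((g1 ^ 2 - g0 * g2 : ℤ) : ℝ) * t ^ 2 ∧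
    0 < (g0 : ℝ) + g1 * t + g2 * t ^ 2 := by
  have hti : IsIntegral ℤ t := IsIntegral.of_pow (n := 3) (by norm_num) (by rw [ht]; exact isIntegral_natCast d)
  have hint : ∀ x y z : ℤ, IsIntegral ℤ ((x : ℝ) + y * t + z * t ^ 2) := by
    intro x y z
    exact ((isIntegral_algebraMap (R := ℤ) (x := x)).add ((isIntegral_algebraMap (R := ℤ) (x := y)).mul hti)).add
      ((isIntegral_algebraMap (R := ℤ) (x := z)).mul (hti.pow 2))
  have hN' : ((g0 ^ 3 + d * g1 ^ 3 + d ^ 2 * g2 ^ 3 - 3 * d * g0 * g1 * g2 : ℤ) : ℝ) = ((1 : ℤ) : ℝ) := by rw [hN]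
  push_cast at hN'
  rw [← ht] at hN'
  set g : ℝ := (g0 : ℝ) + g1 * t + g2 * t ^ 2 with hg
  have hinv : g⁻¹ = ((g0 ^ 2 - d * g1 * g2 : ℤ) : ℝ) + ((d * g2 ^ 2 - g0 * g1 : ℤ) : ℝ) * t + ((g1 ^ 2 - g0 * g2 : ℤ) : ℝ) * t ^ 2 := by
    apply inv_eq_of_mul_eq_one_right
    push_cast
    rw [← ht, hg]
    linear_combination hN'
  refine ⟨⟨⟨g0, g1, g2, by rw [hg]; push_cast; ring⟩, hint _ _ _, by rw [hinv]; exact hint _ _ _⟩, hinv, ?_⟩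
  by_contra hcon
  have h1 : g ≤ 0 := not_lt.1 hcon
  have h2 : (g0 : ℝ) ^ 3 + (g1 * t) ^ 3 + (g2 * t ^ 2) ^ 3 - 3 * g0 * (g1 * t) * (g2 * t ^ 2) = 1 := by
    linear_combination hN'
  rw [factor_id] at h2
  have h3 : 0 ≤ (((g0 : ℝ) - g1 * t) ^ 2 + (g1 * t - g2 * t ^ 2) ^ 2 + (g2 * t ^ 2 - g0) ^ 2) / 2 := by positivity
  have h4 := mul_nonpos_of_nonpos_of_nonneg h1 h3
  rw [← hg] at h2
  linarith

/-- If a unit `> 1` of `ℤ[t]` of norm one has second coefficient prime to `p`, so does the fundamental unit. -/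
theorem crit_gt (g0 g1 g2 : ℤ)
    (hN : g0 ^ 3 + d * g1 ^ 3 + d ^ 2 * g2 ^ 3 - 3 * d * g0 * g1 * g2 = 1)
    (hg1 : ¬ (p : ℤ) ∣ g1) (h1 : 1 < (g0 : ℝ) + g1 * t + g2 * t ^ 2)
    (η : ℝ) (hη : IsU t η) (hη1 : 1 < η) (hmin : ∀ u : ℝ, IsU t u → 1 < u → η ≤ u)
    (a b c : ℤ) (hη' : η = ((a : ℝ) + (b : ℝ) * t + (c : ℝ) * t ^ 2) / 3) : ¬ ((p : ℤ) ∣ b) := by
  intro hb
  have hpi : Prime (p : ℤ) := Nat.prime_iff_prime_int.1 hp
  obtain ⟨hU, _, _⟩ := z_unit p hp h5 d hd t ht g0 g1 g2 hN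
  obtain ⟨k, hk⟩ := eq_pow p hp h5 d hd t ht hU h1 hη hη1 hmin
  obtain ⟨A, B, C, hA, _, hdiv⟩ := pow_coords p hp h5 d hd t ht hη hη1 a b c hη' k
  have hAB : (A : ℝ) + B * t + C * t ^ 2 = ((3 * g0 : ℤ) : ℝ) + ((3 * g1 : ℤ) : ℝ) * t + ((3 * g2 : ℤ) : ℝ) * t ^ 2 := by
    rw [← hk] at hA
    push_cast
    linear_combination -3 * hA
  obtain ⟨_, hB, _⟩ := coords_unique p hp h5 d hd t ht A B C _ _ _ hAB
  obtain ⟨a', b', c', hab, hN1⟩ := unit_coords p hp h5 d hd t ht hη (by linarith)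
  obtain ⟨ea, _, _⟩ := coords_unique p hp h5 d hd t ht a b c a' b' c' (by
    have : ((a : ℝ) + b * t + c * t ^ 2) / 3 = ((a' : ℝ) + b' * t + c' * t ^ 2) / 3 := by rw [← hη', hab]
    linarith)
  have hpd : (p : ℤ) ∣ (d : ℤ) := by
    rcases hd with h | h
    · rw [h]
    · rw [h]; push_cast; exact Dvd.intro_left _ rfl
  have hp3 : ¬ (p : ℤ) ∣ 3 := by
    intro h
    have := Int.le_of_dvd (by norm_num) h
    omega
  have hpa : ¬ (p : ℤ) ∣ a := by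
    rw [ea]
    intro h
    have h7 : (p : ℤ) ∣ 27 := by
      rw [← hN1]
      apply dvd_sub
      · apply dvd_add
        · apply dvd_add
          · exact h.pow (by norm_num)
          · exact hpd.mul_right _
        · rw [pow_two, mul_assoc]; exact hpd.mul_right _
      · have : 3 * (d : ℤ) * a' * b' * c' = a' * (3 * d * b' * c') := by ring
        rw [this]; exact h.mul_right _
    have h8 : (p : ℤ) ∣ 3 ^ 3 := by norm_num; exact h7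
    exact hp3 (hpi.dvd_of_dvd_pow h8)
  have h6 : (p : ℤ) ∣ B * a := by
    have : B * a = (B * a - k * b * A) + k * b * A := by ring
    rw [this]
    exact hdiv.add ((hb.mul_left _).mul_right _)
  rw [hB] at h6
  rcases hpi.dvd_or_dvd h6 with h7 | h7
  · rcases hpi.dvd_or_dvd h7 with h8 | h8
    · exact hp3 h8
    · exact hg1 h8
  · exact hpa h7

theorem crit (g0 g1 g2 : ℤ)
    (hN : g0 ^ 3 + d * g1 ^ 3 + d ^ 2 * g2 ^ 3 - 3 * d * g0 * g1 * g2 = 1)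
    (hg1 : ¬ (p : ℤ) ∣ g1)
    (η : ℝ) (hη : IsU t η) (hη1 : 1 < η) (hmin : ∀ u : ℝ, IsU t u → 1 < u → η ≤ u)
    (a b c : ℤ) (hη' : η = ((a : ℝ) + (b : ℝ) * t + (c : ℝ) * t ^ 2) / 3) : ¬ ((p : ℤ) ∣ b) := by
  have hpi : Prime (p : ℤ) := Nat.prime_iff_prime_int.1 hp
  have hpd : (p : ℤ) ∣ (d : ℤ) := by
    rcases hd with h | h
    · rw [h]
    · rw [h]; push_cast; exact Dvd.intro_left _ rfl
  obtain ⟨_, hinv, hpos⟩ := z_unit p hp h5 d hd t ht g0 g1 g2 hN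
  rcases lt_trichotomy ((g0 : ℝ) + g1 * t + g2 * t ^ 2) 1 with h | h | h
  · have hN' : (g0 ^ 2 - d * g1 * g2) ^ 3 + d * (d * g2 ^ 2 - g0 * g1) ^ 3 + d ^ 2 * (g1 ^ 2 - g0 * g2) ^ 3
        - 3 * d * (g0 ^ 2 - d * g1 * g2) * (d * g2 ^ 2 - g0 * g1) * (g1 ^ 2 - g0 * g2) = 1 := by
      have : (g0 ^ 2 - d * g1 * g2) ^ 3 + d * (d * g2 ^ 2 - g0 * g1) ^ 3 + d ^ 2 * (g1 ^ 2 - g0 * g2) ^ 3
        - 3 * d * (g0 ^ 2 - d * g1 * g2) * (d * g2 ^ 2 - g0 * g1) * (g1 ^ 2 - g0 * g2)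
        = (g0 ^ 3 + d * g1 ^ 3 + d ^ 2 * g2 ^ 3 - 3 * d * g0 * g1 * g2) ^ 2 := by ring
      rw [this, hN]; norm_num
    have hg0 : ¬ (p : ℤ) ∣ g0 := by
      intro h0
      have h7 : (p : ℤ) ∣ 1 := by
        rw [← hN]
        apply dvd_sub
        · apply dvd_add
          · apply dvd_add
            · exact h0.pow (by norm_num)
            · exact hpd.mul_right _
          · rw [pow_two, mul_assoc]; exact hpd.mul_right _
        · have : 3 * (d : ℤ) * g0 * g1 * g2 = g0 * (3 * d * g1 * g2) := by ring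
          rw [this]; exact h0.mul_right _
      exact hpi.not_dvd_one h7
    have hg1' : ¬ (p : ℤ) ∣ (d * g2 ^ 2 - g0 * g1) := by
      intro h0
      have h8 : (p : ℤ) ∣ g0 * g1 := by
        have : g0 * g1 = d * g2 ^ 2 - (d * g2 ^ 2 - g0 * g1) := by ring
        rw [this]
        exact (hpd.mul_right _).sub h0
      rcases hpi.dvd_or_dvd h8 with h9 | h9
      · exact hg0 h9
      · exact hg1 h9
    refine crit_gt p hp h5 d hd t ht _ _ _ hN' hg1' ?_ η hη hη1 hmin a b c hη'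
    rw [← hinv]
    exact (one_lt_inv₀ hpos).2 h
  · exfalso
    obtain ⟨_, h3, _⟩ := coords_unique p hp h5 d hd t ht g0 g1 g2 1 0 0 (by rw [h]; norm_num)
    rw [h3] at hg1
    exact hg1 (dvd_zero _)
  · exact crit_gt p hp h5 d hd t ht g0 g1 g2 hN hg1 h η hη hη1 hmin a b c hη'

end

end Pool.Agent.H377R4
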