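import Mathlib

set_option autoImplicit false

/-! The order `ℤ[θ]`, `θ³ = D`. -/

namespace Pool.Agent.H377R4

@[ext] structure Z3 (D : ℤ) where
  a : ℤ
  b : ℤ
  c : ℤ

namespace Z3
variable {D : ℤ}

instance : Zero (Z3 D) := ⟨⟨0, 0, 0⟩⟩
instance : One (Z3 D) := ⟨⟨1, 0, 0⟩⟩
instance : Add (Z3 D) := ⟨fun x y => ⟨x.a + y.a, x.b + y.b, x.c + y.c⟩⟩
instance : Neg (Z3 D) := ⟨fun x => ⟨-x.a, -x.b, -x.c⟩⟩
instance : Sub (Z3 D) := ⟨fun x y => ⟨x.a - y.a, x.b - y.b, x.c - y.c⟩⟩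
instance : Mul (Z3 D) := ⟨fun x y => ⟨x.a * y.a + D * (x.b * y.c + x.c * y.b),
  x.a * y.b + x.b * y.a + D * (x.c * y.c), x.a * y.c + x.b * y.b + x.c * y.a⟩⟩
instance : NatCast (Z3 D) := ⟨fun n => ⟨n, 0, 0⟩⟩
instance : IntCast (Z3 D) := ⟨fun n => ⟨n, 0, 0⟩⟩
instance : SMul ℕ (Z3 D) := ⟨fun n x => ⟨n * x.a, n * x.b, n * x.c⟩⟩
instance : SMul ℤ (Z3 D) := ⟨fun n x => ⟨n * x.a, n * x.b, n * x.c⟩⟩

@[simp] theorem zero_a : (0 : Z3 D).a = 0 := rfl
@[simp] theorem zero_b : (0 : Z3 D).b = 0 := rfl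
@[simp] theorem zero_c : (0 : Z3 D).c = 0 := rfl
@[simp] theorem one_a : (1 : Z3 D).a = 1 := rfl
@[simp] theorem one_b : (1 : Z3 D).b = 0 := rfl
@[simp] theorem one_c : (1 : Z3 D).c = 0 := rfl
@[simp] theorem add_a (x y : Z3 D) : (x + y).a = x.a + y.a := rfl
@[simp] theorem add_b (x y : Z3 D) : (x + y).b = x.b + y.b := rfl
@[simp] theorem add_c (x y : Z3 D) : (x + y).c = x.c + y.c := rfl
@[simp] theorem neg_a (x : Z3 D) : (-x).a = -x.a := rfl
@[simp] theorem neg_b (x : Z3 D) : (-x).b = -x.b := rfl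
@[simp] theorem neg_c (x : Z3 D) : (-x).c = -x.c := rfl
@[simp] theorem sub_a (x y : Z3 D) : (x - y).a = x.a - y.a := rfl
@[simp] theorem sub_b (x y : Z3 D) : (x - y).b = x.b - y.b := rfl
@[simp] theorem sub_c (x y : Z3 D) : (x - y).c = x.c - y.c := rfl
@[simp] theorem mul_a (x y : Z3 D) : (x * y).a = x.a * y.a + D * (x.b * y.c + x.c * y.b) := rfl
@[simp] theorem mul_b (x y : Z3 D) : (x * y).b = x.a * y.b + x.b * y.a + D * (x.c * y.c) := rfl
@[simp] theorem mul_c (x y : Z3 D) : (x * y).c = x.a * y.c + x.b * y.b + x.c * y.a := rfl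
@[simp] theorem nat_a (n : ℕ) : ((n : Z3 D)).a = n := rfl
@[simp] theorem nat_b (n : ℕ) : ((n : Z3 D)).b = 0 := rfl
@[simp] theorem nat_c (n : ℕ) : ((n : Z3 D)).c = 0 := rfl
@[simp] theorem int_a (n : ℤ) : ((n : Z3 D)).a = n := rfl
@[simp] theorem int_b (n : ℤ) : ((n : Z3 D)).b = 0 := rfl
@[simp] theorem int_c (n : ℤ) : ((n : Z3 D)).c = 0 := rfl
@[simp] theorem nsm_a (n : ℕ) (x : Z3 D) : (n • x).a = n * x.a := rfl
@[simp] theorem nsm_b (n : ℕ) (x : Z3 D) : (n • x).b = n * x.b := rfl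
@[simp] theorem nsm_c (n : ℕ) (x : Z3 D) : (n • x).c = n * x.c := rfl
@[simp] theorem zsm_a (n : ℤ) (x : Z3 D) : (n • x).a = n * x.a := rfl
@[simp] theorem zsm_b (n : ℤ) (x : Z3 D) : (n • x).b = n * x.b := rfl
@[simp] theorem zsm_c (n : ℤ) (x : Z3 D) : (n • x).c = n * x.c := rfl

instance : CommRing (Z3 D) where
  add_assoc x y z := by ext <;> simp <;> ring
  zero_add x := by ext <;> simp
  add_zero x := by ext <;> simp
  add_comm x y := by ext <;> simp <;> ring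
  mul_assoc x y z := by ext <;> simp <;> ring
  one_mul x := by ext <;> simp
  mul_one x := by ext <;> simp
  mul_comm x y := by ext <;> simp <;> ring
  left_distrib x y z := by ext <;> simp <;> ring
  right_distrib x y z := by ext <;> simp <;> ring
  zero_mul x := by ext <;> simp
  mul_zero x := by ext <;> simp
  neg_add_cancel x := by ext <;> simp
  sub_eq_add_neg x y := by ext <;> simp <;> ring
  nsmul := fun n x => n • x
  nsmul_zero x := by ext <;> simp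
  nsmul_succ n x := by ext <;> simp <;> ring
  zsmul := fun n x => n • x
  zsmul_zero' x := by ext <;> simp
  zsmul_succ' n x := by ext <;> simp <;> ring
  zsmul_neg' n x := by ext <;> simp [Int.negSucc_eq] <;> ring
  natCast_zero := by ext <;> simp
  natCast_succ n := by ext <;> simp
  intCast_ofNat n := by ext <;> simp
  intCast_negSucc n := by ext <;> simp <;> omega

/-- `θ² + tθ + t²` -/
def F (t : ℤ) : Z3 D := ⟨t ^ 2, t, 1⟩

def nm (x : Z3 D) : ℤ := x.a ^ 3 + D * x.b ^ 3 + D ^ 2 * x.c ^ 3 - 3 * D * x.a * x.b * x.c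

theorem nm_mul (x y : Z3 D) : nm (x * y) = nm x * nm y := by
  simp only [nm, mul_a, mul_b, mul_c]; ring

theorem nm_int (n : ℤ) : nm (n : Z3 D) = n ^ 3 := by simp [nm]

def emb (t : ℝ) (x : Z3 D) : ℝ := x.a + x.b * t + x.c * t ^ 2

theorem emb_mul (t : ℝ) (ht : t ^ 3 = (D : ℝ)) (x y : Z3 D) : emb t (x * y) = emb t x * emb t y := by
  simp only [emb, mul_a, mul_b, mul_c]; push_cast; rw [← ht]; ring

/-- squared absolute value of the complex embedding -/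
def qf (t : ℝ) (x : Z3 D) : ℝ := (x.a : ℝ) ^ 2 + (x.b * t) ^ 2 + (x.c * t ^ 2) ^ 2 - x.a * (x.b * t)
  - x.a * (x.c * t ^ 2) - (x.b * t) * (x.c * t ^ 2)

theorem qf_mul (t : ℝ) (ht : t ^ 3 = (D : ℝ)) (x y : Z3 D) : qf t (x * y) = qf t x * qf t y := by
  simp only [qf, mul_a, mul_b, mul_c]; push_cast; rw [← ht]; ring

theorem emb_qf (t : ℝ) (ht : t ^ 3 = (D : ℝ)) (x : Z3 D) : emb t x * qf t x = nm x := by
  simp only [qf, emb, nm]; push_cast; rw [← ht]; ring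

theorem qf_nonneg (t : ℝ) (x : Z3 D) : 0 ≤ qf t x := by
  have : qf t x = (((x.a : ℝ) - x.b * t) ^ 2 + ((x.b : ℝ) * t - x.c * t ^ 2) ^ 2 + ((x.c : ℝ) * t ^ 2 - x.a) ^ 2) / 2 := by
    simp only [qf]; ring
  rw [this]; positivity

theorem dvd_iff (n : ℤ) (x : Z3 D) : (n : Z3 D) ∣ x ↔ n ∣ x.a ∧ n ∣ x.b ∧ n ∣ x.c := by
  constructor
  · rintro ⟨y, rfl⟩
    simp
  · rintro ⟨⟨a, ha⟩, ⟨b, hb⟩, ⟨c, hc⟩⟩
    exact ⟨⟨a, b, c⟩, by ext <;> simp [ha, hb, hc]⟩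

end Z3

end Pool.Agent.H377R4
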