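import Pool.Agent.H972ST.Stmts

/-! Project H972-ST, task Alg1 (helper377). -/

set_option autoImplicit false

namespace Pool.Agent.H377R4.ST

open Pool.Agent.H972ST

theorem choose5 (n : ℕ) : ((n.choose 5 : ℕ) : ℚ) = n * (n - 1) * (n - 2) * (n - 3) * (n - 4) / 120 := by
  rcases lt_or_ge n 5 with h | h
  · interval_cases n <;> norm_num [Nat.choose]
  · obtain ⟨k, rfl⟩ := Nat.exists_eq_add_of_le h
    have h1 := Nat.descFactorial_eq_factorial_mul_choose (5 + k) 5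
    have h2 : ((5 + k).descFactorial 5 : ℕ) = (k + 1) * ((k + 2) * ((k + 3) * ((k + 4) * (k + 5)))) := by
      have e : 5 + k = k + 5 := by omega
      rw [e]
      simp [Nat.descFactorial]
    rw [h2] at h1
    have h3 : (((k + 1) * ((k + 2) * ((k + 3) * ((k + 4) * (k + 5)))) : ℕ) : ℚ) = ((Nat.factorial 5 * (5 + k).choose 5 : ℕ) : ℚ) := by
      rw [h1]
    push_cast at h3
    have h4 : ((Nat.factorial 5 : ℕ) : ℚ) = 120 := by norm_num [Nat.factorial]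
    rw [h4] at h3
    push_cast
    linarith

/-- the summand -/
def f (k : ℕ) : ℚ := ((k + 5).choose 5 : ℚ) + ((k + 2).choose 5 : ℚ)

theorem f_eq (k : ℕ) : f k = ((k : ℚ) + 5) * (k + 4) * (k + 3) * (k + 2) * (k + 1) / 120
    + ((k : ℚ) + 2) * (k + 1) * k * (k - 1) * (k - 2) / 120 := by
  unfold f
  rw [choose5, choose5]
  push_cast
  ring

def Sm (m : ℕ) : ℚ := ∑ k ∈ (Finset.range (m - 1)).filter (fun k => k % 2 = m % 2), f k

theorem Sm_step (m : ℕ) : Sm (m + 2) = Sm m + f m := by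
  unfold Sm
  rw [Finset.sum_filter, Finset.sum_filter]
  rcases m with _ | n
  · simp
  · have e1 : n + 1 + 2 - 1 = n + 2 := by omega
    have e2 : n + 1 - 1 = n := by omega
    rw [e1, e2, Finset.sum_range_succ, Finset.sum_range_succ]
    have c1 : ¬ (n % 2 = (n + 1 + 2) % 2) := by omega
    have c2 : (n + 1) % 2 = (n + 1 + 2) % 2 := by omega
    rw [if_neg c1, if_pos c2, add_zero]
    congr 1
    apply Finset.sum_congr rfl
    intro k _
    have c3 : (n + 1 + 2) % 2 = (n + 1) % 2 := by omega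
    rw [c3]

theorem Sm_even (s : ℕ) : L1q ((2 * s : ℕ) : ℚ) + 4 * (8 * Sm (2 * s)) =
    (2 * (s : ℚ) ^ 2 + 2 * s + 1) ^ 3 + 4 * (2 * (s : ℚ) ^ 2) ^ 3
      + 3 * (2 * (s : ℚ) ^ 2 + 2 * s + 1) * (2 * s * (s + 1)) ^ 2 := by
  induction s with
  | zero => simp [Sm, L1q]
  | succ s ih =>
    have e : 2 * (s + 1) = 2 * s + 2 := by ring
    rw [e, Sm_step, f_eq]
    have h : 4 * (8 * Sm (2 * s)) = (2 * (s : ℚ) ^ 2 + 2 * s + 1) ^ 3 + 4 * (2 * (s : ℚ) ^ 2) ^ 3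
      + 3 * (2 * (s : ℚ) ^ 2 + 2 * s + 1) * (2 * s * (s + 1)) ^ 2 - L1q ((2 * s : ℕ) : ℚ) := by linarith
    rw [mul_add, mul_add, h]
    unfold L1q
    push_cast
    ring

theorem Sm_odd (s : ℕ) : L1q ((2 * s + 1 : ℕ) : ℚ) + 4 * (8 * Sm (2 * s + 1)) =
    (2 * (s : ℚ) ^ 2 + 2 * s + 1) ^ 3 + 4 * (2 * ((s : ℚ) + 1) ^ 2) ^ 3
      + 3 * (2 * (s : ℚ) ^ 2 + 2 * s + 1) * (2 * s * (s + 1)) ^ 2 := by
  induction s with
  | zero => simp [Sm, L1q]; norm_num
  | succ s ih =>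
    have e : 2 * (s + 1) + 1 = 2 * s + 1 + 2 := by ring
    rw [e, Sm_step, f_eq]
    have h : 4 * (8 * Sm (2 * s + 1)) = (2 * (s : ℚ) ^ 2 + 2 * s + 1) ^ 3 + 4 * (2 * ((s : ℚ) + 1) ^ 2) ^ 3
      + 3 * (2 * (s : ℚ) ^ 2 + 2 * s + 1) * (2 * s * (s + 1)) ^ 2 - L1q ((2 * s + 1 : ℕ) : ℚ) := by linarith
    rw [mul_add, mul_add, h]
    unfold L1q
    push_cast
    ring

theorem tAlg1 : TAlg1 := by
  intro m
  have hS : ∑ k ∈ (Finset.range (m - 1)).filter (fun k => k % 2 = m % 2),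
    (((k + 5).choose 5 : ℚ) + ((k + 2).choose 5 : ℚ)) = Sm m := rfl
  rw [hS]
  rcases Nat.even_or_odd' m with ⟨s, h | h⟩
  · subst h
    rw [Sm_even]
    have a : 2 * s / 2 = s := by omega
    have b : (2 * s + 1) / 2 = s := by omega
    unfold E00 E01 E11
    rw [a, b]
    push_cast
    ring
  · subst h
    rw [Sm_odd]
    have a : (2 * s + 1) / 2 = s := by omega
    have b : (2 * s + 1 + 1) / 2 = s + 1 := by omega
    unfold E00 E01 E11
    rw [a, b]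
    push_cast
    ring

end Pool.Agent.H377R4.ST
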