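import Pool.Agent.H377R4.Coords

set_option autoImplicit false

namespace Pool.Agent.H377R4

/-- units of the ring of integers of `ℚ(t)`, `t ^ 3 = d` -/
def IsU (t u : ℝ) : Prop :=
  (∃ q0 q1 q2 : ℚ, u = (q0 : ℝ) + (q1 : ℝ) * t + (q2 : ℝ) * t ^ 2) ∧ IsIntegral ℤ u ∧ IsIntegral ℤ u⁻¹

theorem IsU.mul {d : ℕ} {t : ℝ} (ht : t ^ 3 = (d : ℝ)) {u v : ℝ} (hu : IsU t u) (hv : IsU t v) :
    IsU t (u * v) := by
  obtain ⟨⟨a0, a1, a2, ha⟩, h1, h2⟩ := hu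
  obtain ⟨⟨b0, b1, b2, hb⟩, h3, h4⟩ := hv
  refine ⟨⟨a0 * b0 + d * (a1 * b2 + a2 * b1), a0 * b1 + a1 * b0 + d * a2 * b2,
    a0 * b2 + a1 * b1 + a2 * b0, ?_⟩, h1.mul h3, ?_⟩
  · rw [ha, hb]; push_cast; rw [← ht]; ring
  · rw [mul_inv]; exact h2.mul h4

theorem factor_id (X Y Z : ℝ) : X ^ 3 + Y ^ 3 + Z ^ 3 - 3 * X * Y * Z
    = (X + Y + Z) * (((X - Y) ^ 2 + (Y - Z) ^ 2 + (Z - X) ^ 2) / 2) := by ring

section
variable (p : ℕ) (hp : p.Prime) (h5 : 5 ≤ p) (d : ℕ) (hd : d = p ∨ d = 2 * p)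
  (t : ℝ) (ht : t ^ 3 = (d : ℝ))

include hp h5 hd ht

theorem norm_ne_zero (q0 q1 q2 : ℚ) (h : (q0 : ℝ) + q1 * t + q2 * t ^ 2 ≠ 0) :
    q0 ^ 3 + d * q1 ^ 3 + d ^ 2 * q2 ^ 3 - 3 * d * q0 * q1 * q2 ≠ 0 := by
  intro h0
  have h1 : (q0 : ℝ) ^ 3 + (q1 * t) ^ 3 + (q2 * t ^ 2) ^ 3 - 3 * q0 * (q1 * t) * (q2 * t ^ 2) = 0 := by
    have : ((q0 ^ 3 + d * q1 ^ 3 + d ^ 2 * q2 ^ 3 - 3 * d * q0 * q1 * q2 : ℚ) : ℝ) = 0 := by
      rw [h0]; norm_num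
    push_cast at this
    rw [← ht] at this
    linear_combination this
  rw [factor_id] at h1
  rcases mul_eq_zero.1 h1 with h2 | h2
  · exact h h2
  · have e1 : (q0 : ℝ) - q1 * t = 0 := by nlinarith [sq_nonneg ((q0 : ℝ) - q1 * t), sq_nonneg ((q1 : ℝ) * t - q2 * t ^ 2), sq_nonneg ((q2 : ℝ) * t ^ 2 - q0)]
    have e2 : (q2 : ℝ) * t ^ 2 - q0 = 0 := by nlinarith [sq_nonneg ((q0 : ℝ) - q1 * t), sq_nonneg ((q1 : ℝ) * t - q2 * t ^ 2), sq_nonneg ((q2 : ℝ) * t ^ 2 - q0)]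
    obtain ⟨f0, f1, _⟩ := lin_indep p hp h5 d hd t ht q0 (-q1) 0 (by push_cast; linear_combination e1)
    obtain ⟨_, _, f2⟩ := lin_indep p hp h5 d hd t ht (-q0) 0 q2 (by push_cast; linear_combination e2)
    apply h
    rw [f0, f2, neg_eq_zero.1 f1]; norm_num

theorem inv_coords {u : ℝ} (hu0 : u ≠ 0) (q0 q1 q2 : ℚ) (hu : u = (q0 : ℝ) + q1 * t + q2 * t ^ 2) :
    ∃ r0 r1 r2 : ℚ, u⁻¹ = (r0 : ℝ) + r1 * t + r2 * t ^ 2 := by
  have hN := norm_ne_zero p hp h5 d hd t ht q0 q1 q2 (by rw [← hu]; exact hu0)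
  set N := q0 ^ 3 + d * q1 ^ 3 + d ^ 2 * q2 ^ 3 - 3 * d * q0 * q1 * q2 with hNdef
  refine ⟨(q0 ^ 2 - d * q1 * q2) / N, (d * q2 ^ 2 - q0 * q1) / N, (q1 ^ 2 - q0 * q2) / N, ?_⟩
  have hNR : (N : ℝ) ≠ 0 := by exact_mod_cast hN
  have hNe : (N : ℝ) = q0 ^ 3 + d * q1 ^ 3 + d ^ 2 * q2 ^ 3 - 3 * d * q0 * q1 * q2 := by
    rw [hNdef]; push_cast; ring
  rw [inv_eq_iff_eq_inv, ← one_div, eq_div_iff]
  · push_cast
    rw [hu]
    have : ((q0 : ℝ) + q1 * t + q2 * t ^ 2) * ((q0 ^ 2 - d * q1 * q2) + (d * q2 ^ 2 - q0 * q1) * t + (q1 ^ 2 - q0 * q2) * t ^ 2) = N := by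
      rw [hNe, ← ht]; ring
    have h2 : ((q0 : ℝ) ^ 2 - d * q1 * q2) / N + ((d * q2 ^ 2 - q0 * q1) / N) * t + ((q1 ^ 2 - q0 * q2) / N) * t ^ 2
       = ((q0 ^ 2 - d * q1 * q2) + (d * q2 ^ 2 - q0 * q1) * t + (q1 ^ 2 - q0 * q2) * t ^ 2) / N := by
      field_simp
    rw [h2, ← mul_div_assoc, this, div_self hNR]
  · intro h0
    have : ((q0 : ℝ) + q1 * t + q2 * t ^ 2) * ((q0 ^ 2 - d * q1 * q2) + (d * q2 ^ 2 - q0 * q1) * t + (q1 ^ 2 - q0 * q2) * t ^ 2) = N := by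
      rw [hNe, ← ht]; ring
    have h2 : (((q0 ^ 2 - d * q1 * q2) / N : ℚ) : ℝ) + (((d * q2 ^ 2 - q0 * q1) / N : ℚ) : ℝ) * t + (((q1 ^ 2 - q0 * q2) / N : ℚ) : ℝ) * t ^ 2
       = ((q0 ^ 2 - d * q1 * q2) + (d * q2 ^ 2 - q0 * q1) * t + (q1 ^ 2 - q0 * q2) * t ^ 2) / N := by
      push_cast
      field_simp
    rw [h2] at h0
    rw [div_eq_zero_iff] at h0
    rcases h0 with h0 | h0
    · rw [h0, mul_zero] at this; exact hNR this.symm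
    · exact hNR h0

theorem IsU.inv {u : ℝ} (hu : IsU t u) : IsU t u⁻¹ := by
  obtain ⟨⟨a0, a1, a2, ha⟩, h1, h2⟩ := hu
  by_cases h0 : u = 0
  · refine ⟨⟨0, 0, 0, by rw [h0]; norm_num⟩, h2, ?_⟩
    rw [inv_inv]; exact h1
  · refine ⟨inv_coords p hp h5 d hd t ht h0 a0 a1 a2 ha, h2, ?_⟩
    rw [inv_inv]; exact h1

theorem coords_unique (a b c a' b' c' : ℤ)
    (h : ((a : ℝ) + b * t + c * t ^ 2) = ((a' : ℝ) + b' * t + c' * t ^ 2)) : a = a' ∧ b = b' ∧ c = c' := by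
  obtain ⟨h0, h1, h2⟩ := lin_indep p hp h5 d hd t ht ((a : ℚ) - a') ((b : ℚ) - b') ((c : ℚ) - c')
    (by push_cast; linear_combination h)
  refine ⟨?_, ?_, ?_⟩
  · have := sub_eq_zero.1 h0; exact_mod_cast this
  · have := sub_eq_zero.1 h1; exact_mod_cast this
  · have := sub_eq_zero.1 h2; exact_mod_cast this

theorem unit_coords {u : ℝ} (hu : IsU t u) (hpos : 0 < u) :
    ∃ a b c : ℤ, u = ((a : ℝ) + b * t + c * t ^ 2) / 3 ∧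
      a ^ 3 + d * b ^ 3 + d ^ 2 * c ^ 3 - 3 * d * a * b * c = 27 := by
  have hui := IsU.inv p hp h5 d hd t ht hu
  obtain ⟨⟨a0, a1, a2, ha⟩, h1, h2⟩ := hu
  obtain ⟨⟨b0, b1, b2, hb⟩, h3, h4⟩ := hui
  obtain ⟨a, b, c, m, e0, e1, e2, hm⟩ := int_coords p hp h5 d hd t ht a0 a1 a2 (by rw [← ha]; exact h1)
  obtain ⟨a', b', c', m', e0', e1', e2', hm'⟩ := int_coords p hp h5 d hd t ht b0 b1 b2 (by rw [← hb]; exact h2)
  have hu' : u = ((a : ℝ) + b * t + c * t ^ 2) / 3 := by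
    rw [ha, e0, e1, e2]; push_cast; ring
  have hu'' : u⁻¹ = ((a' : ℝ) + b' * t + c' * t ^ 2) / 3 := by
    rw [hb, e0', e1', e2']; push_cast; ring
  refine ⟨a, b, c, hu', ?_⟩
  -- product is one
  have hprod : ((a : ℝ) + b * t + c * t ^ 2) * ((a' : ℝ) + b' * t + c' * t ^ 2) = 9 := by
    have : u * u⁻¹ = 1 := mul_inv_cancel₀ hpos.ne'
    rw [hu'', hu'] at this
    linear_combination 9 * this
  obtain ⟨f0, f1, f2⟩ := coords_unique p hp h5 d hd t ht (a * a' + d * (b * c' + c * b')) (a * b' + b * a' + d * c * c')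
    (a * c' + b * b' + c * a') 9 0 0 (by
      push_cast
      rw [← ht]
      linear_combination hprod)
  have hNN : (a ^ 3 + d * b ^ 3 + d ^ 2 * c ^ 3 - 3 * d * a * b * c) * (a' ^ 3 + d * b' ^ 3 + d ^ 2 * c' ^ 3 - 3 * d * a' * b' * c')
      = (9 : ℤ) ^ 3 := by
    have h9 : (9 : ℤ) ^ 3 = (a * a' + d * (b * c' + c * b')) ^ 3 + d * (a * b' + b * a' + d * c * c') ^ 3
      + d ^ 2 * (a * c' + b * b' + c * a') ^ 3 - 3 * d * (a * a' + d * (b * c' + c * b')) * (a * b' + b * a' + d * c * c') * (a * c' + b * b' + c * a') := by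
      rw [f0, f1, f2]; ring
    rw [h9]; ring
  rw [hm, hm'] at hNN
  have hmm : m * m' = 1 := by linarith
  have hmpos : 0 < m := by
    have h6 : (0 : ℝ) < 27 * m := by
      have h7 : ((a ^ 3 + d * b ^ 3 + d ^ 2 * c ^ 3 - 3 * d * a * b * c : ℤ) : ℝ) = ((27 * m : ℤ) : ℝ) := by rw [hm]
      push_cast at h7
      rw [← h7]
      have h8 : (a : ℝ) ^ 3 + d * b ^ 3 + d ^ 2 * c ^ 3 - 3 * d * a * b * c
        = (a : ℝ) ^ 3 + (b * t) ^ 3 + (c * t ^ 2) ^ 3 - 3 * a * (b * t) * (c * t ^ 2) := by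
        rw [← ht]; ring
      have h9 : (0 : ℝ) ≤ (a : ℝ) ^ 3 + d * b ^ 3 + d ^ 2 * c ^ 3 - 3 * d * a * b * c := by
        rw [h8, factor_id]
        apply mul_nonneg
        · have : (a : ℝ) + b * t + c * t ^ 2 = 3 * u := by rw [hu']; ring
          rw [this]; linarith
        · positivity
      rcases h9.lt_or_eq with h10 | h10
      · exact h10
      · exfalso
        rw [← h10] at h7
        have : (m : ℝ) = 0 := by linarith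
        have : m = 0 := by exact_mod_cast this
        rw [this] at hmm; norm_num at hmm
    have : (0 : ℝ) < m := by linarith
    exact_mod_cast this
  have hm1 : m = 1 := by
    rcases Int.isUnit_iff.1 (IsUnit.of_mul_eq_one _ hmm) with h6 | h6
    · exact h6
    · omega
  rw [hm, hm1]; norm_num

end

end Pool.Agent.H377R4
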